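import Pool.Agent.Lib.MP_452a87_nt.X.Aux68

/-!
# MP_452a87_nt, X/Cof (helper68)
-/

set_option autoImplicit false

namespace Pool.Agent.SMQ

open MvPolynomial Aux68

theorem pCof : S_Cof := by
  classical
  intro n p w Ω δ R M hw hδ hδ1 hR hΩ hsep h k
  have hM : 0 ≤ M := (norm_nonneg _).trans (h 0 (by rw [norm_zero]; linarith))
  set s : Finset (Fin n) := Finset.univ.erase k with hs
  have hcard : s.card ≤ n := by
    rw [hs]
    refine Finset.card_erase_le.trans ?_
    rw [Finset.card_univ, Fintype.card_fin]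
  have h1 := norm_expand p w hw s
  have h2 : ∑ t ∈ s.powerset, Ω ^ (s.card - t.card) * ‖∑ μ, p μ * w μ ^ t.card‖ ≤
      (1 + Ω) ^ s.card * ((Nat.factorial n : ℝ) * M) := by
    rw [← Finset.sum_pow_mul_eq_add_pow (1 : ℝ) Ω s, Finset.sum_mul]
    refine Finset.sum_le_sum fun t ht => ?_
    rw [one_pow, one_mul]
    refine mul_le_mul_of_nonneg_left ?_ (pow_nonneg hΩ _)
    refine (cauchy_exp p w (by linarith) h t.card).trans ?_
    have h3 : t.card ≤ n := (Finset.card_le_card (Finset.mem_powerset.1 ht)).trans hcard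
    have h4 : (Nat.factorial t.card : ℝ) ≤ (Nat.factorial n : ℝ) := by
      exact_mod_cast Nat.factorial_le h3
    refine (div_le_self (by positivity) (one_le_pow₀ hR)).trans ?_
    exact mul_le_mul_of_nonneg_right h4 hM
  have h3 : ∑ μ, p μ * ∏ i ∈ s, (w μ - w i) = p k * ∏ i ∈ s, (w k - w i) := by
    refine Finset.sum_eq_single k (fun μ _ hμ => ?_) (fun h => absurd (Finset.mem_univ _) h)
    rw [Finset.prod_eq_zero (i := μ) (Finset.mem_erase.2 ⟨hμ, Finset.mem_univ _⟩) (sub_self _),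
      mul_zero]
  rw [h3, norm_mul, norm_prod] at h1
  have h4 : δ ^ s.card ≤ ∏ i ∈ s, ‖w k - w i‖ := by
    rw [← Finset.prod_const]
    exact Finset.prod_le_prod (fun _ _ => hδ.le) fun i hi =>
      hsep k i (Finset.ne_of_mem_erase hi).symm
  have h5 : ‖p k‖ * δ ^ s.card ≤ (1 + Ω) ^ s.card * ((Nat.factorial n : ℝ) * M) :=
    (mul_le_mul_of_nonneg_left h4 (norm_nonneg _)).trans (h1.trans h2)
  have h6 : 0 < δ ^ s.card := pow_pos hδ _
  have h7 : ‖p k‖ ≤ ((1 + Ω) / δ) ^ s.card * ((Nat.factorial n : ℝ) * M) := by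
    rw [div_pow, div_mul_eq_mul_div, le_div_iff₀ h6]
    exact h5
  have h8 : 1 ≤ (1 + Ω) / δ := by
    rw [le_div_iff₀ hδ]
    linarith
  rw [mul_assoc]
  exact h7.trans (mul_le_mul_of_nonneg_right (pow_le_pow_right₀ h8 hcard) (by positivity))

end Pool.Agent.SMQ
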