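import Pool.Agent.Lib.MP_452a87_nt.SpecX

/-!
# MP_452a87_nt, X/Cvb (helper68)
-/

set_option autoImplicit false

namespace Pool.Agent.SMQ

open MvPolynomial

theorem pCvb : S_Cvb := by
  intro m a
  refine ⟨2 ^ m * (2 ^ m * ∏ l, max 1 (a l)), ?_⟩
  intro n1 n2 lam s hl hs W
  unfold cv
  have hA : ∀ T : Finset (Fin m), ∏ l ∈ T, a l ≤ ∏ l, max 1 (a l) := by
    intro T
    refine (Finset.prod_le_prod' fun l _ => le_max_right 1 (a l)).trans ?_
    exact Finset.prod_le_prod_of_subset_of_one_le' (Finset.subset_univ T)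
      fun l _ _ => le_max_left 1 (a l)
  have hterm : ∀ U V : Finset (Fin m), (if symmDiff U V = W then
      (∏ l ∈ U ∩ V, a l) * lam U * s V else 0) ≤ (∏ l, max 1 (a l)) * (n1 * n2) := by
    intro U V
    split_ifs with h
    · rw [mul_assoc]
      exact Nat.mul_le_mul (hA _) (Nat.mul_le_mul (hl U) (hs V))
    · exact Nat.zero_le _
  have hc : (Finset.univ : Finset (Finset (Fin m))).card = 2 ^ m := by
    rw [Finset.card_univ, Fintype.card_finset, Fintype.card_fin]
  refine (Finset.sum_le_sum fun U _ => Finset.sum_le_sum fun V _ => hterm U V).trans ?_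
  rw [Finset.sum_const, Finset.sum_const, hc, smul_eq_mul, smul_eq_mul]
  apply le_of_eq
  ring

end Pool.Agent.SMQ
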