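import Pool.Agent.Lib.MP_452a87_nt.SpecX

/-!
# MP_452a87_nt, X/Cvi (helper68)
-/

set_option autoImplicit false

namespace Pool.Agent.SMQ

open MvPolynomial

private theorem mu_mul {m : ℕ} (a : Fin m → ℕ) (U V : Finset (Fin m)) :
    mu a U * mu a V = ((∏ l ∈ U ∩ V, a l : ℕ) : ℝ) * mu a (symmDiff U V) := by
  unfold mu
  rw [← Finset.prod_inter_mul_prod_diff U V, ← Finset.prod_inter_mul_prod_diff V U,
    Finset.inter_comm V U, symmDiff_def, Finset.sup_eq_union,
    Finset.prod_union (Finset.disjoint_left.2 fun x hx hx' =>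
      (Finset.mem_sdiff.1 hx).2 (Finset.mem_sdiff.1 hx').1)]
  have h : ((∏ l ∈ U ∩ V, a l : ℕ) : ℝ) =
      (∏ l ∈ U ∩ V, Real.sqrt (a l)) * ∏ l ∈ U ∩ V, Real.sqrt (a l) := by
    rw [← Finset.prod_mul_distrib, Nat.cast_prod]
    exact Finset.prod_congr rfl fun l _ => (Real.mul_self_sqrt (Nat.cast_nonneg _)).symm
  rw [h]
  ring

theorem pCvi : S_Cvi := by
  intro m a lam s
  have h1 : (∑ U, (lam U : ℝ) * mu a U) * (∑ V, (s V : ℝ) * mu a V) =
      ∑ U, ∑ V, ∑ W, if symmDiff U V = W then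
        ((∏ l ∈ U ∩ V, a l : ℕ) : ℝ) * (lam U : ℝ) * (s V : ℝ) * mu a W else 0 := by
    rw [Finset.sum_mul_sum]
    refine Finset.sum_congr rfl fun U _ => Finset.sum_congr rfl fun V _ => ?_
    rw [Finset.sum_ite_eq, if_pos (Finset.mem_univ _)]
    have := mu_mul a U V
    calc (lam U : ℝ) * mu a U * ((s V : ℝ) * mu a V)
        = (lam U : ℝ) * (s V : ℝ) * (mu a U * mu a V) := by ring
      _ = _ := by rw [this]; ring
  rw [h1]
  have h2 : ∀ W, (cv a lam s W : ℝ) * mu a W = ∑ U, ∑ V, if symmDiff U V = W then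
        ((∏ l ∈ U ∩ V, a l : ℕ) : ℝ) * (lam U : ℝ) * (s V : ℝ) * mu a W else 0 := by
    intro W
    unfold cv
    rw [Nat.cast_sum, Finset.sum_mul]
    refine Finset.sum_congr rfl fun U _ => ?_
    rw [Nat.cast_sum, Finset.sum_mul]
    refine Finset.sum_congr rfl fun V _ => ?_
    split_ifs with h
    · push_cast
      ring
    · simp
  rw [Finset.sum_congr rfl fun W _ => h2 W]
  rw [Finset.sum_congr rfl fun U _ => Finset.sum_comm]
  rw [Finset.sum_comm]

end Pool.Agent.SMQ
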