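import Pool.Agent.Lib.MP_452a87_nt.SpecX

/-!
# The algebraic inequality for power sums
-/

set_option autoImplicit false

namespace Pool.Agent.SMQ

open MvPolynomial

namespace GrAAux

lemma prod_filter_succ {n : ℕ} (f : Fin (n + 1) → ℂ) (j : Fin n) :
    ∏ i ∈ Finset.univ.filter (fun i : Fin (n + 1) => i < j.succ), f i =
      f 0 * ∏ i ∈ Finset.univ.filter (fun i : Fin n => i < j), f i.succ := by
  rw [Finset.prod_filter, Finset.prod_filter, Fin.prod_univ_succ]
  simp [Fin.succ_lt_succ_iff]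

lemma prod_filter_zero {n : ℕ} (f : Fin (n + 1) → ℂ) :
    ∏ i ∈ Finset.univ.filter (fun i : Fin (n + 1) => i < 0), f i = 1 := by
  rw [Finset.prod_filter]
  simp

lemma choose_pow (Ω : ℝ) (l j : ℕ) :
    Ω * (((l.choose (j + 1) : ℕ) : ℝ) * Ω ^ (l - (j + 1))) = ((l.choose (j + 1) : ℕ) : ℝ) * Ω ^ (l - j) := by
  by_cases h : j + 1 ≤ l
  · have : l - j = (l - (j + 1)) + 1 := by omega
    rw [this, pow_succ]
    ring
  · rw [Nat.choose_eq_zero_of_lt (by omega)]
    simp

end GrAAux

open GrAAux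

theorem pGrA : S_GrA := by
  intro n
  induction n with
  | zero => intro p w Ω hw l; simp
  | succ n ih =>
    intro p w Ω hw l
    have hΩ : 0 ≤ Ω := (norm_nonneg _).trans (hw 0)
    set p' : Fin n → ℂ := fun μ => p μ.succ * (w μ.succ - w 0) with hp'
    set w' : Fin n → ℂ := fun μ => w μ.succ with hw'
    have hN : ∀ j : Fin n, ∑ μ, p μ * ∏ i ∈ Finset.univ.filter (fun i : Fin (n + 1) => i < j.succ), (w μ - w i) =
        ∑ μ, p' μ * ∏ i ∈ Finset.univ.filter (fun i : Fin n => i < j), (w' μ - w' i) := by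
      intro j
      rw [Fin.sum_univ_succ]
      rw [prod_filter_succ]
      simp only [sub_self, zero_mul, mul_zero, zero_add]
      refine Finset.sum_congr rfl fun μ _ => ?_
      rw [prod_filter_succ]
      simp only [hp', hw']
      ring
    have hc' : ∀ l : ℕ, ∑ μ, p μ * w μ ^ (l + 1) = w 0 * ∑ μ, p μ * w μ ^ l + ∑ μ, p' μ * w' μ ^ l := by
      intro l
      rw [Finset.mul_sum, Fin.sum_univ_succ, Fin.sum_univ_succ (n := n) (fun μ => w 0 * (p μ * w μ ^ l))]
      rw [add_assoc, ← Finset.sum_add_distrib]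
      congr 1
      · ring
      · refine Finset.sum_congr rfl fun μ _ => ?_
        simp only [hp', hw']
        ring
    have hih := ih p' w' Ω (fun i => hw _)
    conv_rhs => rw [Fin.sum_univ_succ]
    have h0 : ∑ μ, p μ * ∏ i ∈ Finset.univ.filter (fun i : Fin (n + 1) => i < 0), (w μ - w i) = ∑ μ, p μ := by
      refine Finset.sum_congr rfl fun μ _ => ?_
      rw [prod_filter_zero, mul_one]
    simp only [hN, h0, Fin.val_zero, Nat.choose_zero_right, Nat.cast_one, mul_one, Nat.sub_zero, Fin.val_succ]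
    set b : Fin n → ℝ := fun j => ‖∑ μ, p' μ * ∏ i ∈ Finset.univ.filter (fun i : Fin n => i < j), (w' μ - w' i)‖ with hb
    have hb0 : ∀ j, 0 ≤ b j := fun j => norm_nonneg _
    induction l with
    | zero =>
      simp only [pow_zero, mul_one]
      have : 0 ≤ ∑ j : Fin n, b j * ((Nat.choose 0 (j + 1) : ℕ) : ℝ) * Ω ^ (0 - ((j : ℕ) + 1)) :=
        Finset.sum_nonneg fun j _ => by have := hb0 j; positivity
      linarith
    | succ l ihl =>
      rw [hc']
      have h1 : ‖w 0 * ∑ μ, p μ * w μ ^ l‖ ≤ Ω * (‖∑ μ, p μ‖ * Ω ^ l +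
          ∑ j : Fin n, b j * ((Nat.choose l (j + 1) : ℕ) : ℝ) * Ω ^ (l - ((j : ℕ) + 1))) := by
        rw [norm_mul]
        exact mul_le_mul (hw 0) ihl (norm_nonneg _) hΩ
      have h2 : ‖∑ μ, p' μ * w' μ ^ l‖ ≤ ∑ j : Fin n, b j * ((Nat.choose l j : ℕ) : ℝ) * Ω ^ (l - (j : ℕ)) := hih l
      refine (norm_add_le _ _).trans ((add_le_add h1 h2).trans (le_of_eq ?_))
      rw [mul_add, Finset.mul_sum, add_assoc, ← Finset.sum_add_distrib]
      congr 1
      · ring
      · refine Finset.sum_congr rfl fun j _ => ?_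
        have e1 : Ω * (b j * ((Nat.choose l (j + 1) : ℕ) : ℝ) * Ω ^ (l - ((j : ℕ) + 1))) =
            b j * (((Nat.choose l (j + 1) : ℕ) : ℝ) * Ω ^ (l - (j : ℕ))) := by
          rw [← choose_pow Ω l j]
          ring
        rw [e1, Nat.choose_succ_succ, Nat.add_sub_add_right]
        push_cast
        ring

end Pool.Agent.SMQ
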