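import Pool.Agent.Lib.MP_452a87_nt.X.Aux68

/-!
# MP_452a87_nt, X/GrB (helper68)
-/

set_option autoImplicit false

namespace Pool.Agent.SMQ

open MvPolynomial Aux68

theorem pGrB : S_GrB := by
  intro n p w Ω R M hw hR h j
  have hΩ : 0 ≤ Ω := (norm_nonneg _).trans (hw j)
  have hM : 0 ≤ M := (norm_nonneg _).trans (h 0 (by rw [norm_zero]; exact hR.le))
  set s : Finset (Fin n) := Finset.univ.filter (fun i => i < j) with hs
  have hcard : s.card = (j : ℕ) := by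
    have : s = Finset.Iio j := by
      ext i
      simp [hs]
    rw [this, Fin.card_Iio]
  have h1 := norm_expand p w hw s
  have h2 : ∑ t ∈ s.powerset, Ω ^ (s.card - t.card) * ‖∑ μ, p μ * w μ ^ t.card‖ ≤
      ∑ t ∈ s.powerset, Ω ^ (s.card - t.card) * ((Nat.factorial t.card : ℝ) * M / R ^ t.card) :=
    Finset.sum_le_sum fun t _ => mul_le_mul_of_nonneg_left (cauchy_exp p w hR h t.card)
      (pow_nonneg hΩ _)
  rw [Finset.sum_powerset_apply_card (fun l => Ω ^ (s.card - l) *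
    ((Nat.factorial l : ℝ) * M / R ^ l)), hcard] at h2
  have h3 : (∑ l ∈ Finset.range ((j : ℕ) + 1), (j : ℕ).choose l • (Ω ^ ((j : ℕ) - l) *
      ((Nat.factorial l : ℝ) * M / R ^ l))) * R ^ (j : ℕ) =
      (Nat.factorial j : ℝ) * M * ∑ l ∈ Finset.range ((j : ℕ) + 1),
        (Ω * R) ^ ((j : ℕ) - l) / (Nat.factorial ((j : ℕ) - l) : ℝ) := by
    rw [Finset.sum_mul, Finset.mul_sum]
    refine Finset.sum_congr rfl fun l hl => ?_
    have hl' : l ≤ (j : ℕ) := Nat.lt_succ_iff.1 (Finset.mem_range.1 hl)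
    have h4 := Nat.choose_mul_factorial_mul_factorial hl'
    have h5 : ((j : ℕ).choose l : ℝ) * (Nat.factorial l : ℝ) * (Nat.factorial ((j : ℕ) - l) : ℝ) =
        (Nat.factorial (j : ℕ) : ℝ) := by exact_mod_cast h4
    have h6 : R ^ (j : ℕ) = R ^ ((j : ℕ) - l) * R ^ l := by
      rw [← pow_add, Nat.sub_add_cancel hl']
    have h7 : (Nat.factorial ((j : ℕ) - l) : ℝ) ≠ 0 := Nat.cast_ne_zero.2 (Nat.factorial_ne_zero _)
    have h8 : R ^ l ≠ 0 := (pow_pos hR l).ne'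
    rw [nsmul_eq_mul, ← h5, h6, mul_pow]
    field_simp
  have h4 : ∑ l ∈ Finset.range ((j : ℕ) + 1), (Ω * R) ^ ((j : ℕ) - l) /
      (Nat.factorial ((j : ℕ) - l) : ℝ) ≤ Real.exp (Ω * R) := by
    have h5 := Finset.sum_range_reflect (fun k => (Ω * R) ^ k / (Nat.factorial k : ℝ)) ((j : ℕ) + 1)
    simp only [Nat.add_sub_cancel] at h5
    rw [h5]
    exact Real.sum_le_exp_of_nonneg (mul_nonneg hΩ hR.le) _
  calc ‖∑ μ, p μ * ∏ i ∈ s, (w μ - w i)‖ * R ^ (j : ℕ)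
      ≤ (∑ l ∈ Finset.range ((j : ℕ) + 1), (j : ℕ).choose l • (Ω ^ ((j : ℕ) - l) *
      ((Nat.factorial l : ℝ) * M / R ^ l))) * R ^ (j : ℕ) :=
        mul_le_mul_of_nonneg_right (by rw [hcard] at h1; exact h1.trans h2) (pow_nonneg hR.le _)
    _ = _ := h3
    _ ≤ (Nat.factorial j : ℝ) * M * Real.exp (Ω * R) :=
        mul_le_mul_of_nonneg_left h4 (by positivity)

end Pool.Agent.SMQ
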