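import Pool.Agent.Lib.MP_452a87_nt.SpecX

/-!
# Growth of exponential sums
-/

set_option autoImplicit false

namespace Pool.Agent.SMQ

open MvPolynomial

namespace GroAux

lemma term_eq (Ω x : ℝ) (j n : ℕ) :
    (((n + j).choose j : ℕ) : ℝ) * Ω ^ (n + j - j) * x ^ (n + j) / (Nat.factorial (n + j) : ℝ) =
      x ^ j / (Nat.factorial j : ℝ) * ((Ω * x) ^ n / (Nat.factorial n : ℝ)) := by
  rw [Nat.add_sub_cancel]
  have hfac : ((n + j).choose j : ℝ) * (Nat.factorial j : ℝ) * (Nat.factorial n : ℝ) = (Nat.factorial (n + j) : ℝ) := by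
    have := Nat.choose_mul_factorial_mul_factorial (Nat.le_add_left j n)
    rw [Nat.add_sub_cancel] at this
    exact_mod_cast this
  have p1 : (Nat.factorial j : ℝ) ≠ 0 := by positivity
  have p2 : (Nat.factorial n : ℝ) ≠ 0 := by positivity
  have p3 : (Nat.factorial (n + j) : ℝ) ≠ 0 := by positivity
  rw [div_mul_div_comm, div_eq_div_iff p3 (mul_ne_zero p1 p2), ← hfac]
  rw [mul_pow, pow_add]
  ring

lemma hasSum_choose (Ω x : ℝ) (j : ℕ) :
    HasSum (fun l : ℕ => ((l.choose j : ℕ) : ℝ) * Ω ^ (l - j) * x ^ l / (Nat.factorial l : ℝ))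
      (x ^ j / (Nat.factorial j : ℝ) * Real.exp (Ω * x)) := by
  have h1 : HasSum (fun n : ℕ => (Ω * x) ^ n / (Nat.factorial n : ℝ)) (Real.exp (Ω * x)) := by
    rw [Real.exp_eq_exp_ℝ]
    exact NormedSpace.expSeries_div_hasSum_exp (Ω * x)
  have h2 := h1.mul_left (x ^ j / (Nat.factorial j : ℝ))
  rw [← hasSum_nat_add_iff' j]
  have h3 : ∑ i ∈ Finset.range j, ((i.choose j : ℕ) : ℝ) * Ω ^ (i - j) * x ^ i / (Nat.factorial i : ℝ) = 0 := by
    refine Finset.sum_eq_zero fun i hi => ?_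
    rw [Nat.choose_eq_zero_of_lt (Finset.mem_range.1 hi)]
    simp
  rw [h3, sub_zero]
  have key : (fun n : ℕ => (((n + j).choose j : ℕ) : ℝ) * Ω ^ (n + j - j) * x ^ (n + j) / (Nat.factorial (n + j) : ℝ)) =
      fun n : ℕ => x ^ j / (Nat.factorial j : ℝ) * ((Ω * x) ^ n / (Nat.factorial n : ℝ)) := by
    funext n
    exact term_eq Ω x j n
  rw [key]
  exact h2

end GroAux

open GroAux

theorem pGro (hGrA : S_GrA) (hGrB : S_GrB) : S_Gro := by
  intro n p w Ω R M hw hR hM z hz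
  have hM0 : 0 ≤ M := (norm_nonneg _).trans (hM 0 (by simpa using hR.le))
  rcases Nat.eq_zero_or_pos n with rfl | hn
  · simp
  have hΩ : 0 ≤ Ω := (norm_nonneg _).trans (hw ⟨0, hn⟩)
  set b : Fin n → ℝ := fun j => ‖∑ μ, p μ * ∏ i ∈ Finset.univ.filter (fun i => i < j), (w μ - w i)‖ with hb
  have hb0 : ∀ j, 0 ≤ b j := fun j => norm_nonneg _
  have hA := hGrA n p w Ω hw
  have hB := hGrB n p w Ω R M hw hR hM
  -- the series of `F`
  have hF : HasSum (fun l : ℕ => (∑ μ, p μ * w μ ^ l) * z ^ l / (Nat.factorial l : ℂ)) (∑ μ, p μ * Complex.exp (w μ * z)) := by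
    have h1 : ∀ μ ∈ Finset.univ, HasSum (fun l : ℕ => p μ * ((w μ * z) ^ l / (Nat.factorial l : ℂ))) (p μ * Complex.exp (w μ * z)) := by
      intro μ _
      rw [Complex.exp_eq_exp_ℂ]
      exact (NormedSpace.expSeries_div_hasSum_exp (w μ * z)).mul_left _
    convert hasSum_sum h1 using 2 with l
    rw [Finset.sum_mul, Finset.sum_div]
    refine Finset.sum_congr rfl fun μ _ => ?_
    rw [mul_pow]
    ring
  set x : ℝ := ‖z‖ with hx
  have hx0 : 0 ≤ x := norm_nonneg _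
  have hG : HasSum (fun l : ℕ => ∑ j : Fin n, b j * (((l.choose j : ℕ) : ℝ) * Ω ^ (l - (j : ℕ)) * x ^ l / (Nat.factorial l : ℝ)))
      (∑ j : Fin n, b j * (x ^ (j : ℕ) / (Nat.factorial j : ℝ) * Real.exp (Ω * x))) :=
    hasSum_sum fun j _ => (hasSum_choose Ω x j).mul_left _
  have hle : ∀ l : ℕ, ‖(∑ μ, p μ * w μ ^ l) * z ^ l / (Nat.factorial l : ℂ)‖ ≤
      ∑ j : Fin n, b j * (((l.choose j : ℕ) : ℝ) * Ω ^ (l - (j : ℕ)) * x ^ l / (Nat.factorial l : ℝ)) := by
    intro l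
    have e1 : ‖(∑ μ, p μ * w μ ^ l) * z ^ l / (Nat.factorial l : ℂ)‖ =
        ‖∑ μ, p μ * w μ ^ l‖ * (x ^ l / (Nat.factorial l : ℝ)) := by
      rw [norm_div, norm_mul, norm_pow, Complex.norm_natCast]
      ring
    rw [e1]
    have hpos : 0 ≤ x ^ l / (Nat.factorial l : ℝ) := by positivity
    refine (mul_le_mul_of_nonneg_right (hA l) hpos).trans (le_of_eq ?_)
    rw [Finset.sum_mul]
    refine Finset.sum_congr rfl fun j _ => ?_
    simp only [hb]
    ring
  have hnorm : ‖∑ μ, p μ * Complex.exp (w μ * z)‖ ≤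
      ∑ j : Fin n, b j * (x ^ (j : ℕ) / (Nat.factorial j : ℝ) * Real.exp (Ω * x)) := by
    rw [← hF.tsum_eq, ← hG.tsum_eq]
    exact tsum_of_norm_bounded hG.summable.hasSum hle
  refine hnorm.trans ?_
  have hterm : ∀ j : Fin n, b j * (x ^ (j : ℕ) / (Nat.factorial j : ℝ) * Real.exp (Ω * x)) ≤
      17 ^ n * Real.exp (18 * Ω * R) * M := by
    intro j
    have hbj : b j * R ^ (j : ℕ) ≤ (Nat.factorial j : ℝ) * M * Real.exp (Ω * R) := hB j
    have hxj : x ^ (j : ℕ) ≤ 17 ^ (j : ℕ) * R ^ (j : ℕ) := by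
      rw [← mul_pow]
      exact pow_le_pow_left₀ hx0 hz _
    have hexp : Real.exp (Ω * x) ≤ Real.exp (17 * Ω * R) := by
      apply Real.exp_le_exp.2
      nlinarith
    have h17 : (17 : ℝ) ^ (j : ℕ) ≤ 17 ^ n := pow_le_pow_right₀ (by norm_num) j.2.le
    have hfac : (0 : ℝ) < (Nat.factorial j : ℝ) := by positivity
    calc b j * (x ^ (j : ℕ) / (Nat.factorial j : ℝ) * Real.exp (Ω * x))
        ≤ b j * ((17 ^ (j : ℕ) * R ^ (j : ℕ)) / (Nat.factorial j : ℝ) * Real.exp (17 * Ω * R)) := by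
          refine mul_le_mul_of_nonneg_left ?_ (hb0 j)
          refine mul_le_mul ?_ hexp (Real.exp_pos _).le (by positivity)
          exact div_le_div_of_nonneg_right hxj hfac.le
      _ = (b j * R ^ (j : ℕ)) * (17 ^ (j : ℕ) / (Nat.factorial j : ℝ) * Real.exp (17 * Ω * R)) := by ring
      _ ≤ ((Nat.factorial j : ℝ) * M * Real.exp (Ω * R)) * (17 ^ (j : ℕ) / (Nat.factorial j : ℝ) * Real.exp (17 * Ω * R)) :=
          mul_le_mul_of_nonneg_right hbj (by positivity)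
      _ = 17 ^ (j : ℕ) * (Real.exp (Ω * R) * Real.exp (17 * Ω * R)) * M := by
          field_simp
      _ = 17 ^ (j : ℕ) * Real.exp (18 * Ω * R) * M := by
          rw [← Real.exp_add]
          congr 3
          ring
      _ ≤ 17 ^ n * Real.exp (18 * Ω * R) * M := by
          gcongr
  calc ∑ j : Fin n, b j * (x ^ (j : ℕ) / (Nat.factorial j : ℝ) * Real.exp (Ω * x))
      ≤ ∑ _j : Fin n, 17 ^ n * Real.exp (18 * Ω * R) * M := Finset.sum_le_sum fun j _ => hterm j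
    _ = n * 17 ^ n * Real.exp (18 * Ω * R) * M := by
        rw [Finset.sum_const, Finset.card_univ, Fintype.card_fin, nsmul_eq_mul]
        ring

end Pool.Agent.SMQ
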