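import Pool.Agent.Lib.MP_452a87_nt.SpecX

set_option autoImplicit false

namespace Pool.Agent.SMQ

open MvPolynomial

theorem pLI (h1 : S_LIC) : S_LI := by
  intro m a ha
  have hr : Rts (fun l : Fin m => ((Real.sqrt (a l) : ℝ) : ℂ)) (fun l => ((a l : ℕ) : ℤ)) := by
    refine ⟨fun l => ?_, fun X hX hsq => ha X hX ?_⟩
    · show ((Real.sqrt (a l) : ℝ) : ℂ) ^ 2 = (((a l : ℕ) : ℤ) : ℂ)
      rw [← Complex.ofReal_pow, Real.sq_sqrt (Nat.cast_nonneg _)]
      push_cast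
      rfl
    · have h2 : (∏ l ∈ X, ((a l : ℕ) : ℤ)) = ((∏ l ∈ X, a l : ℕ) : ℤ) := by
        push_cast
        rfl
      rw [h2] at hsq
      exact Int.isSquare_natCast_iff.1 hsq
  have h3 := h1 m _ _ hr
  let f : ℝ →ₗ[ℚ] ℂ := (Complex.ofRealHom : ℝ →+* ℂ).toAddMonoidHom.toRatLinearMap
  refine LinearIndependent.of_comp f ?_
  have h4 : (f ∘ fun U : Finset (Fin m) => mu a U) =
      fun U : Finset (Fin m) => rho (fun l : Fin m => ((Real.sqrt (a l) : ℝ) : ℂ)) U := by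
    funext U
    show ((mu a U : ℝ) : ℂ) = _
    unfold mu rho
    push_cast
    rfl
  rw [h4]
  exact h3

end Pool.Agent.SMQ
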