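import Pool.Agent.Lib.MP_452a87_nt.SpecX

/-!
# Part X: `S_LIC`, linear independence of the products of square roots

For every set `s` of indices there is a subfield `F` of `ℂ` which contains the `r l`, `l ∈ s`, and which contains no product `rho r t` with `t` nonempty and disjoint from `s`.
-/

set_option autoImplicit false

namespace Pool.Agent.SMQ

open MvPolynomial

namespace LICAux

/-- The field `F + F ζ`, if `ζ ^ 2 ∈ F`. -/
def ext (F : Subfield ℂ) (ζ : ℂ) (hζ : ζ ^ 2 ∈ F) : Subfield ℂ where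
  carrier := {z | ∃ x ∈ F, ∃ y ∈ F, z = x + y * ζ}
  zero_mem' := ⟨0, F.zero_mem, 0, F.zero_mem, by ring⟩
  one_mem' := ⟨1, F.one_mem, 0, F.zero_mem, by ring⟩
  add_mem' := by
    rintro _ _ ⟨x, hx, y, hy, rfl⟩ ⟨x', hx', y', hy', rfl⟩
    exact ⟨x + x', F.add_mem hx hx', y + y', F.add_mem hy hy', by ring⟩
  neg_mem' := by
    rintro _ ⟨x, hx, y, hy, rfl⟩
    exact ⟨-x, F.neg_mem hx, -y, F.neg_mem hy, by ring⟩
  mul_mem' := by
    rintro _ _ ⟨x, hx, y, hy, rfl⟩ ⟨x', hx', y', hy', rfl⟩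
    exact ⟨x * x' + y * y' * ζ ^ 2, F.add_mem (F.mul_mem hx hx')
      (F.mul_mem (F.mul_mem hy hy') hζ), x * y' + y * x',
      F.add_mem (F.mul_mem hx hy') (F.mul_mem hy hx'), by ring⟩
  inv_mem' := by
    rintro _ ⟨x, hx, y, hy, rfl⟩
    by_cases h0 : x + y * ζ = 0
    · rw [h0, inv_zero]
      exact ⟨0, F.zero_mem, 0, F.zero_mem, by ring⟩
    by_cases h1 : x - y * ζ = 0
    · have e : x + y * ζ = 2 * x := by linear_combination -h1
      rw [e]
      exact ⟨(2 * x)⁻¹, F.inv_mem (F.mul_mem (ofNat_mem F 2) hx), 0, F.zero_mem, by ring⟩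
    · have hN : x ^ 2 - y ^ 2 * ζ ^ 2 ∈ F :=
        F.sub_mem (F.pow_mem hx 2) (F.mul_mem (F.pow_mem hy 2) hζ)
      have hN0 : x ^ 2 - y ^ 2 * ζ ^ 2 ≠ 0 := by
        have e : x ^ 2 - y ^ 2 * ζ ^ 2 = (x + y * ζ) * (x - y * ζ) := by ring
        rw [e]
        exact mul_ne_zero h0 h1
      refine ⟨x * (x ^ 2 - y ^ 2 * ζ ^ 2)⁻¹, F.mul_mem hx (F.inv_mem hN),
        -y * (x ^ 2 - y ^ 2 * ζ ^ 2)⁻¹, F.mul_mem (F.neg_mem hy) (F.inv_mem hN), ?_⟩
      have e : (x + y * ζ)⁻¹ = (x - y * ζ) * (x ^ 2 - y ^ 2 * ζ ^ 2)⁻¹ := by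
        rw [eq_mul_inv_iff_mul_eq₀ hN0]
        have e2 : x ^ 2 - y ^ 2 * ζ ^ 2 = (x + y * ζ) * (x - y * ζ) := by ring
        rw [e2, ← mul_assoc, inv_mul_cancel₀ h0, one_mul]
      rw [e]
      ring

theorem mem_ext {F : Subfield ℂ} {ζ : ℂ} (hζ : ζ ^ 2 ∈ F) {z : ℂ} :
    z ∈ ext F ζ hζ ↔ ∃ x ∈ F, ∃ y ∈ F, z = x + y * ζ := Iff.rfl

theorem rho_sq {m : ℕ} {r : Fin m → ℂ} {a : Fin m → ℤ} (h : ∀ l, r l ^ 2 = (a l : ℂ))
    (t : Finset (Fin m)) : rho r t ^ 2 = ((∏ l ∈ t, a l : ℤ) : ℂ) := by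
  unfold rho
  rw [← Finset.prod_pow, Int.cast_prod]
  exact Finset.prod_congr rfl fun l _ => h l

theorem rho_insert {m : ℕ} (r : Fin m → ℂ) {i : Fin m} {t : Finset (Fin m)} (h : i ∉ t) :
    rho r (insert i t) = r i * rho r t := by
  unfold rho
  rw [Finset.prod_insert h]

theorem exF {m : ℕ} {r : Fin m → ℂ} {a : Fin m → ℤ} (h : Rts r a) (s : Finset (Fin m)) :
    ∃ F : Subfield ℂ, (∀ l ∈ s, r l ∈ F) ∧
      ∀ t : Finset (Fin m), t.Nonempty → Disjoint s t → rho r t ∉ F := by
  classical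
  induction s using Finset.induction_on with
  | empty =>
    refine ⟨(algebraMap ℚ ℂ).fieldRange, fun l hl => absurd hl (Finset.notMem_empty l), ?_⟩
    rintro t ht - ⟨q, hq⟩
    have h1 := rho_sq h.1 t
    rw [← hq] at h1
    have h2 : q ^ 2 = ((∏ l ∈ t, a l : ℤ) : ℚ) := by
      have h3 : ((q ^ 2 : ℚ) : ℂ) = (((∏ l ∈ t, a l : ℤ) : ℚ) : ℂ) := by
        rw [Rat.cast_pow, Rat.cast_intCast, ← h1]
        rfl
      exact_mod_cast h3
    apply h.2 t ht
    rw [← Rat.isSquare_intCast_iff, ← h2]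
    exact ⟨q, pow_two q⟩
  | insert i s hi ih =>
    obtain ⟨F, hF1, hF2⟩ := ih
    have hZ : ∀ n : ℤ, (n : ℂ) ∈ F := fun n => intCast_mem F n
    have hζ : r i ^ 2 ∈ F := by
      rw [h.1 i]
      exact hZ _
    have hri : r i ∉ F := by
      have := hF2 {i} (Finset.singleton_nonempty i) (Finset.disjoint_singleton_right.2 hi)
      unfold rho at this
      rwa [Finset.prod_singleton] at this
    refine ⟨ext F (r i) hζ, ?_, ?_⟩
    · intro l hl
      rw [mem_ext]
      rcases Finset.mem_insert.1 hl with rfl | hl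
      · exact ⟨0, F.zero_mem, 1, F.one_mem, by ring⟩
      · exact ⟨r l, hF1 l hl, 0, F.zero_mem, by ring⟩
    · intro t ht hd hmem
      rw [mem_ext] at hmem
      obtain ⟨x, hx, y, hy, e⟩ := hmem
      rw [Finset.disjoint_insert_left] at hd
      have hsq := rho_sq h.1 t
      have h1 : (2 * (x * y)) * r i ∈ F := by
        have e2 : (2 * (x * y)) * r i =
            ((∏ l ∈ t, a l : ℤ) : ℂ) - x ^ 2 - y ^ 2 * (a i : ℂ) := by
          rw [← hsq, e, ← h.1 i]
          ring
        rw [e2]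
        exact F.sub_mem (F.sub_mem (hZ _) (F.pow_mem hx 2)) (F.mul_mem (F.pow_mem hy 2) (hZ _))
      by_cases hxy : x * y = 0
      · rcases mul_eq_zero.1 hxy with h0 | h0
        · apply hF2 (insert i t) (Finset.insert_nonempty i t)
            (Finset.disjoint_insert_right.2 ⟨hi, hd.2⟩)
          rw [rho_insert r hd.1, e, h0]
          have e3 : r i * (0 + y * r i) = y * r i ^ 2 := by ring
          rw [e3]
          exact F.mul_mem hy hζ
        · apply hF2 t ht hd.2
          rw [e, h0, zero_mul, add_zero]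
          exact hx
      · apply hri
        have h2 : (2 : ℂ) ∈ F := ofNat_mem F 2
        have h3 : 2 * (x * y) ∈ F := F.mul_mem h2 (F.mul_mem hx hy)
        have h4 : 2 * (x * y) ≠ 0 := mul_ne_zero two_ne_zero hxy
        have h5 := F.mul_mem (F.inv_mem h3) h1
        rwa [← mul_assoc, inv_mul_cancel₀ h4, one_mul] at h5

theorem indep {m : ℕ} {r : Fin m → ℂ} {a : Fin m → ℤ} (h : Rts r a) (s : Finset (Fin m)) :
    ∀ g : Finset (Fin m) → ℚ, ∑ U ∈ s.powerset, g U • rho r U = 0 →
      ∀ U ∈ s.powerset, g U = 0 := by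
  classical
  induction s using Finset.induction_on with
  | empty =>
    intro g hg U hU
    rw [Finset.powerset_empty, Finset.mem_singleton] at hU
    rw [Finset.powerset_empty, Finset.sum_singleton] at hg
    unfold rho at hg
    rw [Finset.prod_empty] at hg
    subst hU
    rcases smul_eq_zero.1 hg with h0 | h0
    · exact h0
    · exact absurd h0 one_ne_zero
  | insert i s hi ih =>
    intro g hg
    obtain ⟨F, hF1, hF2⟩ := exF h s
    have hri : r i ∉ F := by
      have := hF2 {i} (Finset.singleton_nonempty i) (Finset.disjoint_singleton_right.2 hi)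
      unfold rho at this
      rwa [Finset.prod_singleton] at this
    have hmem : ∀ g' : Finset (Fin m) → ℚ, ∑ U ∈ s.powerset, g' U • rho r U ∈ F := by
      intro g'
      refine F.sum_mem fun U hU => ?_
      rw [Rat.smul_def]
      refine F.mul_mem ?_ ?_
      · exact SubfieldClass.ratCast_mem F _
      · unfold rho
        exact F.prod_mem fun l hl => hF1 l (Finset.mem_powerset.1 hU hl)
    have hni : ∀ U ∈ s.powerset, i ∉ U := fun U hU h' => hi (Finset.mem_powerset.1 hU h')
    rw [Finset.sum_powerset_insert hi] at hg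
    have h1 : ∑ U ∈ s.powerset, g (insert i U) • rho r (insert i U) =
        (∑ U ∈ s.powerset, g (insert i U) • rho r U) * r i := by
      rw [Finset.sum_mul]
      refine Finset.sum_congr rfl fun U hU => ?_
      rw [rho_insert r (hni U hU), smul_mul_assoc, mul_comm]
    rw [h1] at hg
    have hX := hmem g
    have hY := hmem fun U => g (insert i U)
    have hY0 : ∑ U ∈ s.powerset, g (insert i U) • rho r U = 0 := by
      by_contra hne
      apply hri
      have h2 : r i = -(∑ U ∈ s.powerset, g U • rho r U) *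
          (∑ U ∈ s.powerset, g (insert i U) • rho r U)⁻¹ := by
        rw [eq_mul_inv_iff_mul_eq₀ hne]
        linear_combination hg
      rw [h2]
      exact F.mul_mem (F.neg_mem hX) (F.inv_mem hY)
    rw [hY0, zero_mul, add_zero] at hg
    have hA := ih g hg
    have hB := ih (fun U => g (insert i U)) hY0
    intro U hU
    by_cases hiU : i ∈ U
    · have h3 : insert i (U.erase i) = U := Finset.insert_erase hiU
      rw [← h3]
      refine hB (U.erase i) ?_
      rw [Finset.mem_powerset] at hU ⊢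
      exact Finset.subset_insert_iff.1 hU
    · refine hA U ?_
      rw [Finset.mem_powerset] at hU ⊢
      intro l hl
      rcases Finset.mem_insert.1 (hU hl) with rfl | h'
      · exact absurd hl hiU
      · exact h'

end LICAux

open LICAux

theorem pLIC : S_LIC := by
  intro m r a h
  rw [Fintype.linearIndependent_iff]
  intro g hg U
  refine indep h Finset.univ g ?_ U ?_
  · rw [Finset.powerset_univ]
    exact hg
  · rw [Finset.powerset_univ]
    exact Finset.mem_univ _

end Pool.Agent.SMQ
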