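import Pool.Agent.Lib.MP_452a87_nt.SpecX

/-!
# MP_452a87_nt, X/Lag (helper68)
-/

set_option autoImplicit false

namespace Pool.Agent.SMQ

open MvPolynomial

theorem pLag : S_Lag := by
  classical
  intro Z g R δ ε hR hδ hδ1 hε hZ hsep hg
  refine ⟨Lagrange.interpolate Z id g, ?_, ?_⟩
  · intro x hx
    exact Lagrange.eval_interpolate_at_node g Function.injective_id.injOn hx
  · intro z hz
    have h1 : 1 ≤ 18 * R / δ := by
      rw [le_div_iff₀ hδ]
      linarith
    rw [Lagrange.interpolate_apply, Polynomial.eval_finset_sum]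
    refine (norm_sum_le _ _).trans ?_
    have h2 : ∀ x ∈ Z, ‖Polynomial.eval z (Polynomial.C (g x) * Lagrange.basis Z id x)‖ ≤
        ε * (18 * R / δ) ^ Z.card := by
      intro x hx
      rw [Polynomial.eval_mul, Polynomial.eval_C, norm_mul]
      have h3 : ‖Polynomial.eval z (Lagrange.basis Z id x)‖ ≤ (18 * R / δ) ^ Z.card := by
        unfold Lagrange.basis
        rw [Polynomial.eval_prod, norm_prod]
        have h4 : ∀ y ∈ Z.erase x, ‖Polynomial.eval z (Lagrange.basisDivisor (id x) (id y))‖ ≤
            18 * R / δ := by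
          intro y hy
          unfold Lagrange.basisDivisor
          rw [Polynomial.eval_mul, Polynomial.eval_C, Polynomial.eval_sub, Polynomial.eval_X,
            Polynomial.eval_C, norm_mul, norm_inv]
          have h5 := hsep x hx y (Finset.mem_of_mem_erase hy) (Finset.ne_of_mem_erase hy).symm
          have h6 : ‖z - id y‖ ≤ 18 * R := by
            refine (norm_sub_le _ _).trans ?_
            have := hZ y (Finset.mem_of_mem_erase hy)
            rw [id]
            linarith
          have h7 : ‖id x - id y‖⁻¹ ≤ δ⁻¹ := inv_anti₀ hδ h5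
          calc ‖id x - id y‖⁻¹ * ‖z - id y‖ ≤ δ⁻¹ * (18 * R) := by gcongr
            _ = 18 * R / δ := by
              rw [div_eq_inv_mul]
        refine (Finset.prod_le_prod (fun _ _ => norm_nonneg _) h4).trans ?_
        rw [Finset.prod_const]
        exact pow_le_pow_right₀ h1 (Finset.card_erase_le)
      exact mul_le_mul (hg x hx) h3 (norm_nonneg _) hε
    refine (Finset.sum_le_sum h2).trans ?_
    rw [Finset.sum_const, nsmul_eq_mul, mul_assoc]

end Pool.Agent.SMQ
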