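import Pool.Agent.Lib.MP_452a87_nt.SpecX

/-!
# MP_452a87_nt, X/Lip (helper68)
-/

set_option autoImplicit false

namespace Pool.Agent.SMQ

open MvPolynomial

private theorem pow_lip {y y' : ℂ} {Y η : ℝ} (hY : 1 ≤ Y) (hη : 0 ≤ η) (h : ‖y‖ ≤ Y)
    (h' : ‖y'‖ ≤ Y) (hd : ‖y - y'‖ ≤ η) (k : ℕ) : ‖y ^ k - y' ^ k‖ ≤ k * Y ^ k * η := by
  have hY0 : 0 ≤ Y := by linarith
  induction k with
  | zero => simp
  | succ k ih =>
    have e : y ^ (k + 1) - y' ^ (k + 1) = y * (y ^ k - y' ^ k) + (y - y') * y' ^ k := by ring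
    rw [e]
    refine (norm_add_le _ _).trans ?_
    rw [norm_mul, norm_mul, norm_pow]
    have h1 : ‖y‖ * ‖y ^ k - y' ^ k‖ ≤ Y * (k * Y ^ k * η) := by gcongr
    have h2 : ‖y - y'‖ * ‖y'‖ ^ k ≤ η * Y ^ k := by gcongr
    have h3 : Y ^ k ≤ Y ^ (k + 1) := pow_le_pow_right₀ hY (Nat.le_succ k)
    have h4 : η * Y ^ k ≤ η * Y ^ (k + 1) := mul_le_mul_of_nonneg_left h3 hη
    calc ‖y‖ * ‖y ^ k - y' ^ k‖ + ‖y - y'‖ * ‖y'‖ ^ k
        ≤ Y * (k * Y ^ k * η) + η * Y ^ (k + 1) := by linarith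
      _ = ((k + 1 : ℕ) : ℝ) * Y ^ (k + 1) * η := by
        push_cast
        ring

private theorem prod_lip {ι : Type} {y y' : ι → ℂ} {Y η : ℝ} (hY : 1 ≤ Y) (hη : 0 ≤ η)
    (h : ∀ j, ‖y j‖ ≤ Y) (h' : ∀ j, ‖y' j‖ ≤ Y) (hd : ∀ j, ‖y j - y' j‖ ≤ η) (m : ι → ℕ)
    (s : Finset ι) : ‖∏ i ∈ s, y i ^ m i - ∏ i ∈ s, y' i ^ m i‖ ≤
      ((∑ i ∈ s, m i : ℕ) : ℝ) * Y ^ (∑ i ∈ s, m i) * η := by
  classical
  have hY0 : 0 ≤ Y := by linarith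
  induction s using Finset.induction_on with
  | empty => simp
  | insert i s hi ih =>
    rw [Finset.prod_insert hi, Finset.prod_insert hi, Finset.sum_insert hi]
    have e : y i ^ m i * ∏ i ∈ s, y i ^ m i - y' i ^ m i * ∏ i ∈ s, y' i ^ m i =
        (y i ^ m i - y' i ^ m i) * ∏ i ∈ s, y i ^ m i +
          y' i ^ m i * (∏ i ∈ s, y i ^ m i - ∏ i ∈ s, y' i ^ m i) := by ring
    rw [e]
    refine (norm_add_le _ _).trans ?_
    rw [norm_mul, norm_mul, norm_pow, norm_prod]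
    have h1 : ‖y i ^ m i - y' i ^ m i‖ ≤ m i * Y ^ m i * η := pow_lip hY hη (h i) (h' i) (hd i) _
    have h2 : ∏ i ∈ s, ‖y i ^ m i‖ ≤ Y ^ (∑ i ∈ s, m i) := by
      rw [← Finset.prod_pow_eq_pow_sum]
      refine Finset.prod_le_prod (fun _ _ => norm_nonneg _) fun j _ => ?_
      rw [norm_pow]
      exact pow_le_pow_left₀ (norm_nonneg _) (h j) _
    have h3 : ‖y' i‖ ^ m i ≤ Y ^ m i := pow_le_pow_left₀ (norm_nonneg _) (h' i) _
    have h4 : 0 ≤ ∏ i ∈ s, ‖y i ^ m i‖ := Finset.prod_nonneg fun _ _ => norm_nonneg _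
    have h5 : ‖y i ^ m i - y' i ^ m i‖ * ∏ i ∈ s, ‖y i ^ m i‖ ≤
        (m i * Y ^ m i * η) * Y ^ (∑ i ∈ s, m i) := by gcongr
    have h6 : ‖y' i‖ ^ m i * ‖∏ i ∈ s, y i ^ m i - ∏ i ∈ s, y' i ^ m i‖ ≤
        Y ^ m i * (((∑ i ∈ s, m i : ℕ) : ℝ) * Y ^ (∑ i ∈ s, m i) * η) := by gcongr
    refine (add_le_add h5 h6).trans (le_of_eq ?_)
    push_cast
    ring

theorem pLip : S_Lip := by
  intro ι _ f d y y' Y η hY hη hd hy hy' hyy
  have hY0 : 0 ≤ Y := by linarith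
  rw [aeval_def, aeval_def, eval₂_eq', eval₂_eq', ← Finset.sum_sub_distrib]
  unfold l1
  rw [Nat.cast_sum, Finset.sum_mul]
  refine (norm_sum_le _ _).trans (Finset.sum_le_sum fun m hm => ?_)
  rw [← mul_sub, norm_mul]
  have h1 : ‖(algebraMap ℤ ℂ) (coeff m f)‖ = ((coeff m f).natAbs : ℝ) := by
    rw [eq_intCast, Complex.norm_intCast, ← Int.cast_abs, Int.abs_eq_natAbs, Int.cast_natCast]
  rw [h1]
  refine mul_le_mul_of_nonneg_left ?_ (Nat.cast_nonneg _)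
  refine (prod_lip hY hη hy hy' hyy (fun i => m i) Finset.univ).trans ?_
  have h2 : ∑ i, m i ≤ d := by
    have h3 := le_totalDegree hm
    rw [Finsupp.sum_fintype _ _ fun _ => rfl] at h3
    exact h3.trans hd
  have h3 : ((∑ i, m i : ℕ) : ℝ) ≤ d := by exact_mod_cast h2
  have h4 : Y ^ (∑ i, m i) ≤ Y ^ d := pow_le_pow_right₀ hY h2
  have h5 : 0 ≤ Y ^ (∑ i, m i) := pow_nonneg hY0 _
  gcongr

end Pool.Agent.SMQ
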