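import Pool.Agent.Lib.MP_452a87_nt.SpecX

/-!
# Numerical inequalities
-/

set_option autoImplicit false

namespace Pool.Agent.SMQ

open MvPolynomial

namespace NumXAux

lemma exp_bound : Real.exp (5 / 4) ≤ 64 / 17 := by
  have h1 : Real.exp (5 / 4) ^ 4 ≤ (64 / 17 : ℝ) ^ 4 := by
    rw [← Real.exp_nat_mul]
    have e : ((4 : ℕ) : ℝ) * (5 / 4) = (5 : ℕ) * 1 := by norm_num
    rw [e, Real.exp_nat_mul]
    have h2 := Real.exp_one_lt_d9
    calc Real.exp 1 ^ 5 ≤ (2.7182818286 : ℝ) ^ 5 := pow_le_pow_left₀ (Real.exp_pos _).le h2.le _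
      _ ≤ (64 / 17 : ℝ) ^ 4 := by norm_num
  exact le_of_pow_le_pow_left₀ (by norm_num) (by norm_num) h1

lemma part1 (D N : ℕ) (C : ℝ) (hD : 4 ≤ D) (hN : 33 ≤ N) (hNC : (18 * C) ^ 2 ≤ (N : ℝ)) :
    4 * (((N ^ D : ℕ) : ℝ) * 17 ^ (N ^ D) * Real.exp (18 * (C * N) * (C * N))) ≤ 64 ^ (N ^ D) := by
  have hN1 : (1 : ℝ) ≤ N := by exact_mod_cast (by omega : 1 ≤ N)
  set M : ℕ := N ^ D with hM
  have hMN : N ^ 4 ≤ M := Nat.pow_le_pow_right (by omega) hD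
  have hMN' : (N : ℝ) ^ 4 ≤ M := by exact_mod_cast hMN
  have hM33 : (33 : ℝ) ≤ M := by
    have h33 : (33 : ℝ) ≤ N := by exact_mod_cast hN
    have : (N : ℝ) ≤ (N : ℝ) ^ 4 := le_self_pow₀ hN1 (by norm_num)
    linarith
  have h1 : 18 * (C * N) * (C * N) ≤ (M : ℝ) := by
    have h2 : 18 * C ^ 2 ≤ (18 * C) ^ 2 := by nlinarith [sq_nonneg C]
    have h3 : 18 * (C * N) * (C * N) = 18 * C ^ 2 * N ^ 2 := by ring
    rw [h3]
    have h4 : 18 * C ^ 2 * (N : ℝ) ^ 2 ≤ N * N ^ 2 := by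
      apply mul_le_mul_of_nonneg_right (h2.trans hNC) (by positivity)
    have h5 : (N : ℝ) * N ^ 2 ≤ N ^ 4 := by
      have : (N : ℝ) * N ^ 2 = N ^ 3 := by ring
      rw [this]
      exact pow_le_pow_right₀ hN1 (by norm_num)
    linarith
  have h2 : 4 * (M : ℝ) ≤ Real.exp (M / 4) := by
    -- exp y ≥ y^2/2 * ..., use exp (M/8)^2
    have h3 : (M : ℝ) / 8 + 1 ≤ Real.exp (M / 8) := by
      have := Real.add_one_le_exp ((M : ℝ) / 8)
      linarith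
    have h4 : Real.exp (M / 4) = Real.exp (M / 8) * Real.exp (M / 8) := by
      rw [← Real.exp_add]
      congr 1
      ring
    have h5 : (M : ℝ) / 16 + 1 ≤ Real.exp (M / 16) := by
      have := Real.add_one_le_exp ((M : ℝ) / 16)
      linarith
    have h6 : Real.exp (M / 8) = Real.exp (M / 16) * Real.exp (M / 16) := by
      rw [← Real.exp_add]
      congr 1
      ring
    have h7 : ((M : ℝ) / 16 + 1) ^ 2 ≤ Real.exp (M / 8) := by
      rw [h6, sq]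
      exact mul_le_mul h5 h5 (by positivity) (Real.exp_pos _).le
    have h8 : ((M : ℝ) / 16 + 1) ^ 4 ≤ Real.exp (M / 4) := by
      rw [h4]
      calc ((M : ℝ) / 16 + 1) ^ 4 = ((M : ℝ) / 16 + 1) ^ 2 * ((M : ℝ) / 16 + 1) ^ 2 := by ring
        _ ≤ _ := mul_le_mul h7 h7 (by positivity) (Real.exp_pos _).le
    refine le_trans ?_ h8
    have hb : (1 : ℝ) ≤ (M : ℝ) / 16 + 1 := by linarith
    -- M ≥ N^4 is huge
    have hbig : (1024 : ℝ) ≤ M := by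
      have h33 : (33 : ℝ) ≤ N := by exact_mod_cast hN
      have : (33 : ℝ) ^ 4 ≤ (N : ℝ) ^ 4 := pow_le_pow_left₀ (by norm_num) h33 _
      norm_num at this
      linarith
    have h9 : (64 : ℝ) ≤ (M : ℝ) / 16 + 1 := by linarith
    have h10 : ((M : ℝ) / 16 + 1) ^ 2 * 1 ≤ ((M : ℝ) / 16 + 1) ^ 4 := by
      have : ((M : ℝ) / 16 + 1) ^ 4 = ((M : ℝ) / 16 + 1) ^ 2 * ((M : ℝ) / 16 + 1) ^ 2 := by ring
      rw [this]
      exact mul_le_mul_of_nonneg_left (one_le_pow₀ hb) (by positivity)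
    nlinarith
  have h3 : (17 : ℝ) ^ M * (Real.exp (M / 4) * Real.exp M) ≤ 64 ^ M := by
    have e1 : Real.exp (M / 4) * Real.exp M = Real.exp (5 / 4) ^ M := by
      rw [← Real.exp_add, ← Real.exp_nat_mul]
      congr 1
      ring
    rw [e1, ← mul_pow]
    apply pow_le_pow_left₀ (by positivity)
    have := exp_bound
    linarith
  calc 4 * ((M : ℝ) * 17 ^ M * Real.exp (18 * (C * N) * (C * N)))
      = (4 * (M : ℝ)) * 17 ^ M * Real.exp (18 * (C * N) * (C * N)) := by ring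
    _ ≤ Real.exp (M / 4) * 17 ^ M * Real.exp M := by
        gcongr
    _ = (17 : ℝ) ^ M * (Real.exp (M / 4) * Real.exp M) := by ring
    _ ≤ 64 ^ M := h3

lemma klog (K N : ℕ) (hN : 4 * K ^ 2 + 33 ≤ N) : (K : ℝ) * Real.log N < N := by
  have hN0 : (0 : ℝ) < N := by
    have : 0 < N := by omega
    exact_mod_cast this
  have hs : 0 < Real.sqrt N := Real.sqrt_pos.2 hN0
  have h1 : Real.log N = 2 * Real.log (Real.sqrt N) := by
    rw [Real.log_sqrt hN0.le]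
    ring
  have h2 : Real.log (Real.sqrt N) ≤ Real.sqrt N - 1 := Real.log_le_sub_one_of_pos hs
  have h3 : 2 * (K : ℝ) ≤ Real.sqrt N := by
    apply Real.le_sqrt_of_sq_le
    have : (4 * (K : ℝ) ^ 2 + 33) ≤ N := by exact_mod_cast hN
    nlinarith
  have h4 : Real.sqrt N * Real.sqrt N = N := Real.mul_self_sqrt hN0.le
  have hK : (0 : ℝ) ≤ K := Nat.cast_nonneg _
  rw [h1]
  have h5 : (K : ℝ) * (2 * Real.log (Real.sqrt N)) ≤ (2 * K) * (Real.sqrt N - 1) := by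
    have := mul_le_mul_of_nonneg_left h2 (by positivity : (0 : ℝ) ≤ 2 * K)
    linarith
  rcases Nat.eq_zero_or_pos K with h0 | h0
  · subst h0
    simpa using hN0
  · have hK1 : (1 : ℝ) ≤ K := by exact_mod_cast h0
    nlinarith

/-- `N ^ (K * M) * exp (-(N * M)) < 1`. -/
lemma final (K N M : ℕ) (hM : 1 ≤ M) (hN : 4 * K ^ 2 + 33 ≤ N) :
    (N : ℝ) ^ (K * M) * Real.exp (-((N : ℝ) * M)) < 1 := by
  have hN0 : (0 : ℝ) < N := by
    have : 0 < N := by omega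
    exact_mod_cast this
  have hM0 : (0 : ℝ) < M := by exact_mod_cast hM
  have h1 : (N : ℝ) ^ (K * M) = Real.exp (Real.log N * ((K * M : ℕ) : ℝ)) := by
    rw [← Real.rpow_natCast, Real.rpow_def_of_pos hN0]
  rw [h1, ← Real.exp_add, Real.exp_lt_one_iff]
  have h2 := klog K N hN
  push_cast
  nlinarith

end NumXAux

open NumXAux

theorem pNumX : S_NumX := by
  intro D C hD hC
  set K : ℕ := (2 * D + 2) + D + (4 + 3 * D) + 1 + (2 * D + 2) * 2 ^ D with hK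
  refine ⟨⌈(18 * C) ^ 2⌉₊ + (4 * K ^ 2 + 33), fun N hN => ?_⟩
  have hN33 : 33 ≤ N := by omega
  have hNK : 4 * K ^ 2 + 33 ≤ N := by omega
  have hNC : (18 * C) ^ 2 ≤ (N : ℝ) := by
    have h1 : (18 * C) ^ 2 ≤ (⌈(18 * C) ^ 2⌉₊ : ℝ) := Nat.le_ceil _
    have h2 : ((⌈(18 * C) ^ 2⌉₊ : ℕ) : ℝ) ≤ N := by exact_mod_cast (by omega : ⌈(18 * C) ^ 2⌉₊ ≤ N)
    exact h1.trans h2
  refine ⟨by omega, part1 D N C hD hN33 hNC, ?_⟩
  set x : ℝ := (N : ℝ) with hx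
  have hx33 : (33 : ℝ) ≤ x := by
    rw [hx]
    exact_mod_cast hN33
  have hx0 : 0 < x := by linarith
  have hx1 : 1 ≤ x := by linarith
  have h18 : 18 * C ≤ x := by nlinarith
  have hCx : C ≤ x := by linarith
  have hC0 : 0 ≤ C := by linarith
  set M : ℕ := N ^ D with hM
  have hM1 : 1 ≤ M := Nat.one_le_pow _ _ (by omega)
  have hxM : x ^ D = (M : ℝ) := by rw [hM, hx]; push_cast; ring
  -- the factors
  have a1 : (1 + C * x) * (C * x) ^ D ≤ x ^ (2 * D + 2) := by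
    have b1 : 1 + C * x ≤ x ^ 2 := by nlinarith
    have b2 : (C * x) ^ D ≤ x ^ (2 * D) := by
      rw [pow_mul]
      apply pow_le_pow_left₀ (by positivity)
      nlinarith
    calc (1 + C * x) * (C * x) ^ D ≤ x ^ 2 * x ^ (2 * D) := mul_le_mul b1 b2 (by positivity) (by positivity)
      _ = x ^ (2 * D + 2) := by ring
  have a1' : ((1 + C * x) * (C * x) ^ D) ^ M ≤ x ^ ((2 * D + 2) * M) := by
    rw [pow_mul]
    exact pow_le_pow_left₀ (by positivity) a1 _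
  have a2 : (Nat.factorial M : ℝ) ≤ x ^ (D * M) := by
    have b1 : Nat.factorial M ≤ M ^ M := Nat.factorial_le_pow M
    have b2 : (Nat.factorial M : ℝ) ≤ ((M ^ M : ℕ) : ℝ) := by exact_mod_cast b1
    refine b2.trans (le_of_eq ?_)
    push_cast
    rw [← hxM, ← pow_mul]
  have a3 : (3 : ℝ) ≤ x ^ 1 := by rw [pow_one]; linarith
  have a4 : (((2 * N) ^ D : ℕ) : ℝ) ≤ x ^ (2 * D) := by
    push_cast
    rw [pow_mul]
    apply pow_le_pow_left₀ (by positivity)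
    nlinarith
  have a6 : C * x ^ 2 ≤ x ^ 3 := by nlinarith [sq_nonneg x]
  have hceil : ⌈C * x ^ 2⌉₊ ≤ M := by
    rw [Nat.ceil_le]
    have b1 : x ^ 3 ≤ x ^ D := pow_le_pow_right₀ hx1 (by omega)
    rw [hxM] at b1
    linarith
  have a7 : C ^ (⌈C * x ^ 2⌉₊) ≤ x ^ M := by
    calc C ^ (⌈C * x ^ 2⌉₊) ≤ x ^ (⌈C * x ^ 2⌉₊) := pow_le_pow_left₀ hC0 hCx _
      _ ≤ x ^ M := pow_le_pow_right₀ hx1 hceil
  have a8 : 18 * (C * x) * (C * x) ^ D ≤ x ^ (2 * D + 2) := by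
    have b1 : 18 * (C * x) ≤ x ^ 2 := by nlinarith
    have b2 : (C * x) ^ D ≤ x ^ (2 * D) := by
      rw [pow_mul]
      apply pow_le_pow_left₀ (by positivity)
      nlinarith
    calc 18 * (C * x) * (C * x) ^ D ≤ x ^ 2 * x ^ (2 * D) := mul_le_mul b1 b2 (by positivity) (by positivity)
      _ = x ^ (2 * D + 2) := by ring
  have a8' : (18 * (C * x) * (C * x) ^ D) ^ ((2 * N) ^ D) ≤ x ^ ((2 * D + 2) * 2 ^ D * M) := by
    have e : (2 * D + 2) * 2 ^ D * M = (2 * D + 2) * ((2 * N) ^ D) := by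
      rw [mul_pow, hM]
      ring
    rw [e, pow_mul]
    exact pow_le_pow_left₀ (by positivity) a8 _
  have hexp : Real.exp (-x ^ (D + 1)) = Real.exp (-(x * M)) := by
    rw [pow_succ, hxM]
    congr 2
    ring
  have hexp0 := (Real.exp_pos (-(x * M))).le
  rw [hexp]
  have hfin := final K N M hM1 hNK
  refine lt_of_le_of_lt ?_ hfin
  have step1 : C * x ^ 2 * C ^ (⌈C * x ^ 2⌉₊) * Real.exp (-(x * M)) ≤ x ^ 3 * x ^ M * Real.exp (-(x * M)) := by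
    gcongr
  have step2 : 3 * ((((2 * N) ^ D : ℕ) : ℝ) * (x ^ D * (C * x ^ 2 * C ^ (⌈C * x ^ 2⌉₊) * Real.exp (-(x * M)))) *
      (18 * (C * x) * (C * x) ^ D) ^ ((2 * N) ^ D)) ≤
      x ^ 1 * (x ^ (2 * D) * (x ^ D * (x ^ 3 * x ^ M * Real.exp (-(x * M)))) * x ^ ((2 * D + 2) * 2 ^ D * M)) := by
    gcongr
  have step3 : ((1 + C * x) * (C * x) ^ D) ^ M * (Nat.factorial M : ℝ) *
      (3 * ((((2 * N) ^ D : ℕ) : ℝ) * (x ^ D * (C * x ^ 2 * C ^ (⌈C * x ^ 2⌉₊) * Real.exp (-(x * M)))) *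
      (18 * (C * x) * (C * x) ^ D) ^ ((2 * N) ^ D))) ≤
      x ^ ((2 * D + 2) * M) * x ^ (D * M) *
      (x ^ 1 * (x ^ (2 * D) * (x ^ D * (x ^ 3 * x ^ M * Real.exp (-(x * M)))) * x ^ ((2 * D + 2) * 2 ^ D * M))) := by
    gcongr
  refine step3.trans ?_
  have e1 : x ^ ((2 * D + 2) * M) * x ^ (D * M) *
      (x ^ 1 * (x ^ (2 * D) * (x ^ D * (x ^ 3 * x ^ M * Real.exp (-(x * M)))) * x ^ ((2 * D + 2) * 2 ^ D * M))) =
      x ^ ((2 * D + 2) * M + D * M + 1 + 2 * D + D + 3 + M + (2 * D + 2) * 2 ^ D * M) * Real.exp (-(x * M)) := by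
    simp only [pow_add]
    ring
  rw [e1]
  refine mul_le_mul_of_nonneg_right ?_ hexp0
  apply pow_le_pow_right₀ hx1
  have hk : K * M = (2 * D + 2) * M + D * M + (4 + 3 * D) * M + M + (2 * D + 2) * 2 ^ D * M := by
    rw [hK]
    ring
  rw [hk]
  have : 4 + 3 * D ≤ (4 + 3 * D) * M := Nat.le_mul_of_pos_right _ hM1
  omega

end Pool.Agent.SMQ
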