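import Pool.Agent.Lib.MP_452a87_nt.SpecX

/-!
# MP_452a87_nt, X/Pts (helper68)
-/

set_option autoImplicit false

namespace Pool.Agent.SMQ

open MvPolynomial

private theorem mu_nonneg {m : ℕ} (a : Fin m → ℕ) (U : Finset (Fin m)) : 0 ≤ mu a U :=
  Finset.prod_nonneg fun _ _ => Real.sqrt_nonneg _

private theorem mu_le {m : ℕ} (a : Fin m → ℕ) (U : Finset (Fin m)) :
    mu a U ≤ ∏ l, max 1 (a l : ℝ) := by
  unfold mu
  have h1 : ∀ l, Real.sqrt (a l) ≤ max 1 (a l : ℝ) := by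
    intro l
    rcases le_total (1 : ℝ) (a l) with h | h
    · refine le_trans ?_ (le_max_right _ _)
      rw [Real.sqrt_le_left (by linarith)]
      nlinarith
    · refine le_trans ?_ (le_max_left _ _)
      rw [Real.sqrt_le_one]
      exact h
  calc ∏ l ∈ U, Real.sqrt (a l) ≤ ∏ l ∈ U, max 1 (a l : ℝ) :=
        Finset.prod_le_prod (fun _ _ => Real.sqrt_nonneg _) fun l _ => h1 l
    _ ≤ ∏ l, max 1 (a l : ℝ) := by
        rw [← Finset.prod_sdiff (Finset.subset_univ U)]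
        refine le_mul_of_one_le_left (Finset.prod_nonneg fun l _ =>
          le_trans zero_le_one (le_max_left _ _)) ?_
        calc (1 : ℝ) = ∏ _l ∈ Finset.univ \ U, (1 : ℝ) := by rw [Finset.prod_const_one]
          _ ≤ _ := Finset.prod_le_prod (fun _ _ => zero_le_one) fun l _ => le_max_left _ _

private theorem abs_sum_le {m : ℕ} (a : Fin m → ℕ) (n : ℕ) (lam : Finset (Fin m) → ℕ)
    (h : ∀ U, lam U ≤ n) :
    |∑ U, (lam U : ℝ) * mu a U| ≤ 2 ^ m * (∏ l, max 1 (a l : ℝ)) * n := by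
  refine (Finset.abs_sum_le_sum_abs _ _).trans ?_
  have h1 : ∀ U, |(lam U : ℝ) * mu a U| ≤ (∏ l, max 1 (a l : ℝ)) * n := by
    intro U
    rw [abs_of_nonneg (mul_nonneg (Nat.cast_nonneg _) (mu_nonneg a U)), mul_comm]
    have h2 : (lam U : ℝ) ≤ n := by exact_mod_cast h U
    have h3 := mu_le a U
    have h4 := mu_nonneg a U
    exact mul_le_mul h3 h2 (Nat.cast_nonneg _) (h4.trans h3)
  refine (Finset.sum_le_sum fun U _ => h1 U).trans (le_of_eq ?_)
  rw [Finset.sum_const, Finset.card_univ, Fintype.card_finset, Fintype.card_fin, nsmul_eq_mul]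
  push_cast
  ring

theorem pPts (_ : S_LI) (h2 : S_Spa) : S_Pts := by
  intro m a L hInd hL
  obtain ⟨C', hC', hS⟩ := h2 m a hInd
  have hL0 : 0 < ‖L‖ := norm_pos_iff.2 hL
  set A : ℝ := ∏ l, max 1 (a l : ℝ) with hA
  have hA1 : 1 ≤ A := by
    rw [hA]
    have : ∀ l ∈ (Finset.univ : Finset (Fin m)), (1 : ℝ) ≤ max 1 (a l : ℝ) :=
      fun l _ => le_max_left _ _
    calc (1 : ℝ) = ∏ _l : Fin m, (1 : ℝ) := by rw [Finset.prod_const_one]
      _ ≤ _ := Finset.prod_le_prod (fun _ _ => zero_le_one) this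
  have hm : (1 : ℝ) ≤ 2 ^ m := one_le_pow₀ (by norm_num)
  have hC0 : 0 < C' := by linarith
  set K : ℝ := 1 + 1 / ‖L‖ with hK
  have hK1 : 1 ≤ K := by
    rw [hK]
    have : 0 < 1 / ‖L‖ := by positivity
    linarith
  have hKL : 1 ≤ ‖L‖ * K := by
    rw [hK, mul_add, mul_one_div_cancel hL0.ne']
    linarith
  set C : ℝ := 2 * C' * K + 2 ^ m * A * (1 + 2 * ‖L‖) with hC
  have hp1 : 0 ≤ 2 ^ m * A * (1 + 2 * ‖L‖) := by positivity
  have hp2 : 2 * C' ≤ 2 * C' * K := le_mul_of_one_le_right (by positivity) hK1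
  have hp3 : 2 ^ m * A ≤ 2 ^ m * A * (1 + 2 * ‖L‖) :=
    le_mul_of_one_le_right (by positivity) (by linarith)
  have hp4 : 2 ^ m * A * (2 * ‖L‖) ≤ 2 ^ m * A * (1 + 2 * ‖L‖) :=
    mul_le_mul_of_nonneg_left (by linarith) (by positivity)
  have hp5 : C' ≤ 2 * C' := by linarith
  have hD : (2 : ℕ) ^ m ≠ 0 := by positivity
  refine ⟨C, by linarith, fun N hN => ?_⟩
  have hN1 : (1 : ℝ) ≤ N := by exact_mod_cast hN
  have hN0 : (0 : ℝ) ≤ N := by linarith
  refine ⟨?_, ?_, ?_, ?_⟩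
  · intro lam
    refine (abs_sum_le a N (fun U => (lam U : ℕ)) fun U => (lam U).2.le).trans ?_
    exact mul_le_mul_of_nonneg_right (by linarith) hN0
  · intro lam lam' hne
    have h3 := hS N hN (fun U => ((lam U : ℕ) : ℤ) - ((lam' U : ℕ) : ℤ)) ?_ ?_
    · have h4 : ∑ U, ((((lam U : ℕ) : ℤ) - ((lam' U : ℕ) : ℤ) : ℤ) : ℝ) * mu a U =
          (∑ U, ((lam U : ℕ) : ℝ) * mu a U) - ∑ U, ((lam' U : ℕ) : ℝ) * mu a U := by
        rw [← Finset.sum_sub_distrib]
        refine Finset.sum_congr rfl fun U _ => ?_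
        push_cast
        ring
      rw [h4] at h3
      refine h3.trans (mul_le_mul_of_nonneg_left ?_ (abs_nonneg _))
      apply pow_le_pow_left₀ (by positivity)
      exact mul_le_mul_of_nonneg_right (by linarith) hN0
    · intro h0
      apply hne
      funext U
      have := congrFun h0 U
      simp only [Pi.zero_apply] at this
      apply Fin.ext
      omega
    · intro U
      have h5 := (lam U).2
      have h6 := (lam' U).2
      rw [abs_le]
      constructor <;> omega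
  · intro s
    rw [norm_mul, Complex.norm_real, Real.norm_eq_abs]
    have h3 := abs_sum_le a (2 * N) (fun V => (s V : ℕ)) fun V => (s V).2.le
    calc |∑ V, ((s V : ℕ) : ℝ) * mu a V| * ‖L‖
        ≤ (2 ^ m * A * ((2 * N : ℕ) : ℝ)) * ‖L‖ := mul_le_mul_of_nonneg_right h3 hL0.le
      _ = 2 ^ m * A * (2 * ‖L‖) * N := by
        push_cast
        ring
      _ ≤ C * N := mul_le_mul_of_nonneg_right (by linarith) hN0
  · intro s s' hne
    have h3 := hS (2 * N) (by omega) (fun U => ((s U : ℕ) : ℤ) - ((s' U : ℕ) : ℤ)) ?_ ?_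
    · have h4 : ∑ U, ((((s U : ℕ) : ℤ) - ((s' U : ℕ) : ℤ) : ℤ) : ℝ) * mu a U =
          (∑ U, ((s U : ℕ) : ℝ) * mu a U) - ∑ U, ((s' U : ℕ) : ℝ) * mu a U := by
        rw [← Finset.sum_sub_distrib]
        refine Finset.sum_congr rfl fun U _ => ?_
        push_cast
        ring
      rw [h4] at h3
      rw [← sub_mul, norm_mul, ← Complex.ofReal_sub, Complex.norm_real, Real.norm_eq_abs]
      set x := |(∑ U, ((s U : ℕ) : ℝ) * mu a U) - ∑ U, ((s' U : ℕ) : ℝ) * mu a U| with hx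
      have hx0 : 0 ≤ x := abs_nonneg _
      have h5 : (C' * ((2 * N : ℕ) : ℝ)) ^ 2 ^ m * K ≤ (C * N) ^ 2 ^ m := by
        have h6 : K ≤ K ^ 2 ^ m := le_self_pow₀ hK1 hD
        calc (C' * ((2 * N : ℕ) : ℝ)) ^ 2 ^ m * K ≤ (C' * ((2 * N : ℕ) : ℝ)) ^ 2 ^ m * K ^ 2 ^ m :=
              mul_le_mul_of_nonneg_left h6 (by positivity)
          _ = (2 * C' * K * N) ^ 2 ^ m := by
              rw [← mul_pow]
              congr 1
              push_cast
              ring
          _ ≤ (C * N) ^ 2 ^ m := by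
              apply pow_le_pow_left₀ (by positivity)
              exact mul_le_mul_of_nonneg_right (by linarith) hN0
      calc (1 : ℝ) ≤ x * (C' * ((2 * N : ℕ) : ℝ)) ^ 2 ^ m := h3
        _ = x * (C' * ((2 * N : ℕ) : ℝ)) ^ 2 ^ m * 1 := by ring
        _ ≤ x * (C' * ((2 * N : ℕ) : ℝ)) ^ 2 ^ m * (‖L‖ * K) :=
            mul_le_mul_of_nonneg_left hKL (by positivity)
        _ = x * ‖L‖ * ((C' * ((2 * N : ℕ) : ℝ)) ^ 2 ^ m * K) := by ring
        _ ≤ x * ‖L‖ * (C * N) ^ 2 ^ m := mul_le_mul_of_nonneg_left h5 (by positivity)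
    · intro h0
      apply hne
      funext U
      have := congrFun h0 U
      simp only [Pi.zero_apply] at this
      apply Fin.ext
      omega
    · intro U
      have h5 := (s U).2
      have h6 := (s' U).2
      rw [abs_le]
      constructor <;> push_cast <;> omega

end Pool.Agent.SMQ
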