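import Pool.Agent.Lib.MP_452a87_nt.SpecX

/-!
# Small at many points implies small on the disc
-/

set_option autoImplicit false

namespace Pool.Agent.SMQ

open MvPolynomial

theorem pSml (hSwz : S_Swz) (hGro : S_Gro) (hLag : S_Lag) : S_Sml := by
  intro n p w Ω R δ ε Z hw hR hδ hδ1 hε hZ hsep hsm hcard hG
  have hR0 : 0 < R := by linarith
  set F : ℂ → ℂ := fun z => ∑ μ, p μ * Complex.exp (w μ * z) with hF
  have hFd : Differentiable ℂ F := by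
    rw [hF]
    fun_prop
  obtain ⟨z0, hz0, hmax⟩ := (isCompact_closedBall (0 : ℂ) R).exists_isMaxOn
    ⟨0, by simp [hR0.le]⟩ (hFd.continuous.norm.continuousOn)
  set M1 : ℝ := ‖F z0‖ with hM1
  have hM1le : ∀ z : ℂ, ‖z‖ ≤ R → ‖F z‖ ≤ M1 := fun z hz =>
    hmax (by simpa using hz)
  have hM10 : 0 ≤ M1 := norm_nonneg _
  obtain ⟨Q, hQ1, hQ2⟩ := hLag Z F R δ ε hR hδ hδ1 hε hZ hsep hsm
  set q : ℝ := Z.card * ε * (18 * R / δ) ^ Z.card with hq
  have hq0 : 0 ≤ q := by positivity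
  set G : ℝ := n * 17 ^ n * Real.exp (18 * Ω * R) with hGdef
  have hG0 : 0 ≤ G := by positivity
  have hgro := hGro n p w Ω R M1 hw hR0 hM1le
  have hdiff : Differentiable ℂ (fun z => F z - Q.eval z) := hFd.sub Q.differentiable
  have h1 : ∀ z : ℂ, ‖z‖ ≤ 17 * R → ‖F z - Q.eval z‖ ≤ G * M1 + q := by
    intro z hz
    calc ‖F z - Q.eval z‖ ≤ ‖F z‖ + ‖Q.eval z‖ := norm_sub_le _ _
      _ ≤ G * M1 + q := add_le_add (hgro z hz) (hQ2 z hz)
  have hsw := hSwz (fun z => F z - Q.eval z) Z R (G * M1 + q) hdiff hR0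
    (fun x hx => ⟨hZ x hx, by simp [hQ1 x hx]⟩) h1
  have h8 : (64 : ℝ) ^ n ≤ 8 ^ Z.card := by
    calc (64 : ℝ) ^ n = 8 ^ (2 * n) := by rw [pow_mul]; norm_num
      _ ≤ 8 ^ Z.card := pow_le_pow_right₀ (by norm_num) hcard
  have h4 : 4 * G ≤ 8 ^ Z.card := hG.trans h8
  have h81 : (1 : ℝ) ≤ 8 ^ Z.card := one_le_pow₀ (by norm_num)
  have hkey : ∀ z : ℂ, ‖z‖ ≤ R → ‖F z‖ ≤ M1 / 4 + 2 * q := by
    intro z hz
    have ha := hsw z hz
    have hb : ‖F z - Q.eval z‖ ≤ M1 / 4 + q := by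
      by_contra hcon
      push Not at hcon
      have hpos : (0 : ℝ) < 8 ^ Z.card := by positivity
      have h5 : (M1 / 4 + q) * 8 ^ Z.card < ‖F z - Q.eval z‖ * 8 ^ Z.card :=
        mul_lt_mul_of_pos_right hcon hpos
      have h6 : G * M1 + q ≤ (M1 / 4 + q) * 8 ^ Z.card := by
        have h7 : G * M1 ≤ M1 / 4 * 8 ^ Z.card := by nlinarith
        have h8' : q ≤ q * 8 ^ Z.card := by nlinarith
        nlinarith
      linarith
    have hc : ‖Q.eval z‖ ≤ q := hQ2 z (by linarith)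
    calc ‖F z‖ = ‖(F z - Q.eval z) + Q.eval z‖ := by ring_nf
      _ ≤ ‖F z - Q.eval z‖ + ‖Q.eval z‖ := norm_add_le _ _
      _ ≤ M1 / 4 + 2 * q := by linarith
  have hM1' : M1 ≤ M1 / 4 + 2 * q := hkey z0 (by simpa using hz0)
  intro z hz
  have := hkey z hz
  show ‖F z‖ ≤ 3 * q
  linarith

end Pool.Agent.SMQ
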