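import Pool.Agent.Lib.MP_452a87_nt.SpecX

set_option autoImplicit false

namespace Pool.Agent.SMQ

open MvPolynomial

namespace SpaAux

variable {m : ℕ}

/-- The coordinates of the product. -/
def cc (a : Fin m → ℕ) (f g : Finset (Fin m) → ℤ) (W : Finset (Fin m)) : ℤ :=
  ∑ U, ∑ V, if symmDiff U V = W then (∏ l ∈ U ∩ V, (a l : ℤ)) * f U * g V else 0

lemma mu_mul (a : Fin m → ℕ) (U V : Finset (Fin m)) :
    mu a U * mu a V = (∏ l ∈ U ∩ V, (a l : ℝ)) * mu a (symmDiff U V) := by
  unfold mu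
  have h1 : symmDiff U V = (U \ V) ∪ (V \ U) := rfl
  rw [h1, Finset.prod_union (disjoint_sdiff_sdiff),
    ← Finset.prod_inter_mul_prod_sdiff U V, ← Finset.prod_inter_mul_prod_sdiff V U,
    Finset.inter_comm V U]
  have h2 : (∏ l ∈ U ∩ V, (a l : ℝ)) = (∏ l ∈ U ∩ V, Real.sqrt (a l)) *
      ∏ l ∈ U ∩ V, Real.sqrt (a l) := by
    rw [← Finset.prod_mul_distrib]
    refine Finset.prod_congr rfl fun l _ => ?_
    rw [Real.mul_self_sqrt (Nat.cast_nonneg _)]
  rw [h2]
  ring

lemma cc_sum (a : Fin m → ℕ) (f g : Finset (Fin m) → ℤ) :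
    (∑ U, (f U : ℝ) * mu a U) * (∑ V, (g V : ℝ) * mu a V) = ∑ W, (cc a f g W : ℝ) * mu a W := by
  rw [Finset.sum_mul_sum]
  have h1 : ∀ W, (cc a f g W : ℝ) * mu a W = ∑ U, ∑ V, if symmDiff U V = W then
      (∏ l ∈ U ∩ V, (a l : ℝ)) * f U * g V * mu a W else 0 := by
    intro W
    unfold cc
    rw [Int.cast_sum, Finset.sum_mul]
    refine Finset.sum_congr rfl fun U _ => ?_
    rw [Int.cast_sum, Finset.sum_mul]
    refine Finset.sum_congr rfl fun V _ => ?_
    split_ifs
    · push_cast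
      rfl
    · simp
  simp_rw [h1]
  conv_rhs => rw [Finset.sum_comm]
  refine Finset.sum_congr rfl fun U _ => ?_
  conv_rhs => rw [Finset.sum_comm]
  refine Finset.sum_congr rfl fun V _ => ?_
  rw [Finset.sum_ite_eq, if_pos (Finset.mem_univ _)]
  have h2 := mu_mul a U V
  calc (f U : ℝ) * mu a U * ((g V : ℝ) * mu a V) = f U * g V * (mu a U * mu a V) := by ring
    _ = _ := by rw [h2]; ring

lemma prod_le (a : Fin m → ℕ) (ha : ∀ l, 1 ≤ a l) (X : Finset (Fin m)) :
    ∏ l ∈ X, a l ≤ ∏ l, a l :=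
  Finset.prod_le_prod_of_subset_of_one_le' (Finset.subset_univ X) fun i _ _ => ha i

lemma one_le_prod (a : Fin m → ℕ) (ha : ∀ l, 1 ≤ a l) : 1 ≤ ∏ l, a l := by
  have h := prod_le a ha ∅
  simpa using h

lemma mu_nonneg (a : Fin m → ℕ) (U : Finset (Fin m)) : 0 ≤ mu a U :=
  Finset.prod_nonneg fun _ _ => Real.sqrt_nonneg _

lemma mu_le (a : Fin m → ℕ) (ha : ∀ l, 1 ≤ a l) (U : Finset (Fin m)) :
    mu a U ≤ ((∏ l, a l : ℕ) : ℝ) := by
  have h1 : mu a U ≤ ∏ l ∈ U, (a l : ℝ) := by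
    unfold mu
    refine Finset.prod_le_prod (fun _ _ => Real.sqrt_nonneg _) fun l _ => ?_
    rw [Real.sqrt_le_left (Nat.cast_nonneg _)]
    have h2 : (1 : ℝ) ≤ a l := by exact_mod_cast ha l
    nlinarith
  refine h1.trans ?_
  have h3 := prod_le a ha U
  have h4 : ((∏ l ∈ U, a l : ℕ) : ℝ) ≤ ((∏ l, a l : ℕ) : ℝ) := by exact_mod_cast h3
  rw [Nat.cast_prod] at h4
  exact h4

lemma cc_bound (a : Fin m → ℕ) (ha : ∀ l, 1 ≤ a l) (f g : Finset (Fin m) → ℤ) (N : ℕ)
    (hf : ∀ U, |f U| ≤ (N : ℤ)) (hg : ∀ U, |g U| ≤ (N : ℤ)) (W : Finset (Fin m)) :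
    |cc a f g W| ≤ ((4 ^ m * (∏ l, a l) * N ^ 2 : ℕ) : ℤ) := by
  have hA : ∀ X : Finset (Fin m), (∏ l ∈ X, (a l : ℤ)) ≤ ((∏ l, a l : ℕ) : ℤ) := by
    intro X
    have h3 := prod_le a ha X
    have h4 : ((∏ l ∈ X, a l : ℕ) : ℤ) ≤ ((∏ l, a l : ℕ) : ℤ) := by exact_mod_cast h3
    rw [Nat.cast_prod] at h4
    exact h4
  have hA0 : ∀ X : Finset (Fin m), 0 ≤ (∏ l ∈ X, (a l : ℤ)) := fun X =>
    Finset.prod_nonneg fun _ _ => Int.natCast_nonneg _
  have hcard : (Finset.univ : Finset (Finset (Fin m))).card = 2 ^ m := by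
    rw [Finset.card_univ, Fintype.card_finset, Fintype.card_fin]
  have h1 : ∀ U V, |if symmDiff U V = W then (∏ l ∈ U ∩ V, (a l : ℤ)) * f U * g V else 0| ≤
      ((∏ l, a l : ℕ) : ℤ) * (N : ℤ) ^ 2 := by
    intro U V
    split_ifs
    · rw [abs_mul, abs_mul, abs_of_nonneg (hA0 _), pow_two, ← mul_assoc]
      have hN : (0 : ℤ) ≤ N := Int.natCast_nonneg _
      exact mul_le_mul (mul_le_mul (hA _) (hf U) (abs_nonneg _) (Int.natCast_nonneg _)) (hg V)
        (abs_nonneg _) (mul_nonneg (Int.natCast_nonneg _) hN)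
    · rw [abs_zero]
      positivity
  unfold cc
  calc |∑ U, ∑ V, if symmDiff U V = W then (∏ l ∈ U ∩ V, (a l : ℤ)) * f U * g V else 0|
      ≤ ∑ U : Finset (Fin m), ∑ V : Finset (Fin m), ((∏ l, a l : ℕ) : ℤ) * (N : ℤ) ^ 2 := by
        refine (Finset.abs_sum_le_sum_abs _ _).trans (Finset.sum_le_sum fun U _ => ?_)
        exact (Finset.abs_sum_le_sum_abs _ _).trans (Finset.sum_le_sum fun V _ => h1 U V)
    _ = _ := by
        rw [Finset.sum_const, Finset.sum_const, hcard, smul_smul, ← mul_pow, nsmul_eq_mul]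
        push_cast
        ring

/-- The conjugate coefficients. -/
def cj (i : Fin m) (lam : Finset (Fin m) → ℤ) (U : Finset (Fin m)) : ℤ :=
  if i ∈ U then -lam U else lam U

lemma abs_cj (i : Fin m) (lam : Finset (Fin m) → ℤ) (U : Finset (Fin m)) :
    |cj i lam U| = |lam U| := by
  unfold cj
  split_ifs
  · rw [abs_neg]
  · rfl

lemma cj_eq_zero (i : Fin m) (lam : Finset (Fin m) → ℤ) (U : Finset (Fin m)) :
    cj i lam U = 0 ↔ lam U = 0 := by
  rw [← abs_eq_zero, abs_cj, abs_eq_zero]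

lemma cc_supp (a : Fin m → ℕ) (i : Fin m) (s : Finset (Fin m)) (lam : Finset (Fin m) → ℤ)
    (hs : ∀ U, ¬ U ⊆ insert i s → lam U = 0) (W : Finset (Fin m)) (hW : ¬ W ⊆ s) :
    cc a lam (cj i lam) W = 0 := by
  by_cases hi : i ∈ W
  · -- antisymmetry
    have h1 : cc a lam (cj i lam) W = - cc a lam (cj i lam) W := by
      conv_lhs => unfold cc
      rw [Finset.sum_comm]
      unfold cc
      rw [← Finset.sum_neg_distrib]
      refine Finset.sum_congr rfl fun U _ => ?_
      rw [← Finset.sum_neg_distrib]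
      refine Finset.sum_congr rfl fun V _ => ?_
      rw [symmDiff_comm V U, Finset.inter_comm V U]
      split_ifs with h
      · have h2 : i ∈ symmDiff U V := by rw [h]; exact hi
        rw [Finset.mem_symmDiff] at h2
        unfold cj
        rcases h2 with ⟨h3, h4⟩ | ⟨h3, h4⟩
        · rw [if_pos h3, if_neg h4]
          ring
        · rw [if_neg h4, if_pos h3]
          ring
      · simp
    omega
  · unfold cc
    refine Finset.sum_eq_zero fun U _ => Finset.sum_eq_zero fun V _ => ?_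
    split_ifs with h
    · by_cases hU : U ⊆ insert i s
      · by_cases hV : V ⊆ insert i s
        · exfalso
          apply hW
          intro x hx
          have h2 : x ∈ insert i s := by
            rw [← h, Finset.mem_symmDiff] at hx
            rcases hx with ⟨h3, _⟩ | ⟨h3, _⟩
            · exact hU h3
            · exact hV h3
          rcases Finset.mem_insert.1 h2 with rfl | h3
          · exact absurd hx hi
          · exact h3
        · rw [(cj_eq_zero i lam V).2 (hs V hV), mul_zero]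
      · rw [hs U hU, mul_zero, zero_mul]
    · rfl

lemma ne_zero (a : Fin m → ℕ) (hLI : LinearIndependent ℚ (fun U : Finset (Fin m) => mu a U))
    (lam : Finset (Fin m) → ℤ) (hlam : lam ≠ 0) : ∑ U, (lam U : ℝ) * mu a U ≠ 0 := by
  intro h0
  apply hlam
  have h1 := Fintype.linearIndependent_iff.1 hLI (fun U => (lam U : ℚ)) (by
    rw [← h0]
    refine Finset.sum_congr rfl fun U _ => ?_
    rw [Rat.smul_def]
    push_cast
    rfl)
  funext U
  have h2 := h1 U
  exact_mod_cast h2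

lemma main (a : Fin m → ℕ) (hLI : LinearIndependent ℚ (fun U : Finset (Fin m) => mu a U))
    (ha : ∀ l, 1 ≤ a l) (s : Finset (Fin m)) : ∃ C : ℝ, 1 ≤ C ∧ ∀ N : ℕ, 1 ≤ N →
      ∀ lam : Finset (Fin m) → ℤ, (∀ U, ¬ U ⊆ s → lam U = 0) → lam ≠ 0 →
      (∀ U, |lam U| ≤ (N : ℤ)) → ∀ e : ℕ, e + 1 = 2 ^ s.card →
      1 ≤ |∑ U, (lam U : ℝ) * mu a U| * (C * N) ^ e := by
  induction s using Finset.induction_on with
  | empty =>
    refine ⟨1, le_rfl, fun N _ lam hs hlam _ e he => ?_⟩
    have he0 : e = 0 := by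
      rw [Finset.card_empty, pow_zero] at he
      omega
    subst he0
    have h0 : lam ∅ ≠ 0 := by
      intro h0
      apply hlam
      funext U
      by_cases hU : U = ∅
      · rw [hU, h0]; rfl
      · exact hs U (fun h => hU (Finset.subset_empty.1 h))
    have h1 : ∑ U, (lam U : ℝ) * mu a U = lam ∅ := by
      rw [Finset.sum_eq_single ∅]
      · unfold mu
        simp
      · intro U _ hU
        rw [hs U (fun h => hU (Finset.subset_empty.1 h))]
        simp
      · intro h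
        exact absurd (Finset.mem_univ _) h
    rw [h1, pow_zero, mul_one]
    have h2 : (1 : ℤ) ≤ |lam ∅| := Int.one_le_abs h0
    exact_mod_cast h2
  | insert i s hi ih =>
    obtain ⟨C₀, hC₀, h⟩ := ih
    set A : ℕ := ∏ l, a l with hA
    have hA1 : (1 : ℝ) ≤ A := by exact_mod_cast one_le_prod a ha
    have h2m : (1 : ℝ) ≤ 2 ^ m := one_le_pow₀ (by norm_num)
    have h4m : (1 : ℝ) ≤ 4 ^ m := one_le_pow₀ (by norm_num)
    have hP1 : (1 : ℝ) ≤ 4 ^ m * A := one_le_mul_of_one_le_of_one_le h4m hA1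
    have hP2 : (1 : ℝ) ≤ 2 ^ m * A := one_le_mul_of_one_le_of_one_le h2m hA1
    have hC1 : (1 : ℝ) ≤ C₀ * (4 ^ m * A) := one_le_mul_of_one_le_of_one_le hC₀ hP1
    have hC : (1 : ℝ) ≤ C₀ * (4 ^ m * A) * (2 ^ m * A) := one_le_mul_of_one_le_of_one_le hC1 hP2
    refine ⟨C₀ * (4 ^ m * A) * (2 ^ m * A), hC, fun N hN lam hs hlam hb e' he' => ?_⟩
    obtain ⟨e, he⟩ : ∃ e, e + 1 = 2 ^ s.card := ⟨2 ^ s.card - 1, by
      have := Nat.one_le_two_pow (n := s.card)
      omega⟩
    have hee : e' = 2 * e + 1 := by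
      rw [Finset.card_insert_of_notMem hi, pow_succ] at he'
      omega
    have hN1 : (1 : ℝ) ≤ N := by exact_mod_cast hN
    -- the two factors
    have hcjne : cj i lam ≠ 0 := by
      intro h0
      apply hlam
      funext U
      exact (cj_eq_zero i lam U).1 (congrFun h0 U)
    have hx := ne_zero a hLI lam hlam
    have hxb := ne_zero a hLI (cj i lam) hcjne
    have hprod := cc_sum a lam (cj i lam)
    have hcne : cc a lam (cj i lam) ≠ 0 := by
      intro h0
      have h1 : ∑ W, (cc a lam (cj i lam) W : ℝ) * mu a W = 0 := by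
        rw [h0]
        simp
      rw [← hprod] at h1
      exact (mul_ne_zero hx hxb) h1
    have hcb : ∀ W, |cc a lam (cj i lam) W| ≤ ((4 ^ m * A * N ^ 2 : ℕ) : ℤ) :=
      cc_bound a ha lam (cj i lam) N hb (fun U => by rw [abs_cj]; exact hb U)
    have hN' : 1 ≤ 4 ^ m * A * N ^ 2 := by
      have h1 : (1 : ℝ) ≤ ((4 ^ m * A * N ^ 2 : ℕ) : ℝ) := by
        push_cast
        exact one_le_mul_of_one_le_of_one_le hP1 (one_le_pow₀ hN1)
      exact_mod_cast h1
    have h1 := h (4 ^ m * A * N ^ 2) hN' (cc a lam (cj i lam)) (cc_supp a i s lam hs) hcne hcb e he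
    rw [← hprod, abs_mul] at h1
    -- the conjugate is small
    have hxbb : |∑ U, (cj i lam U : ℝ) * mu a U| ≤ 2 ^ m * A * N := by
      have hcard : (Finset.univ : Finset (Finset (Fin m))).card = 2 ^ m := by
        rw [Finset.card_univ, Fintype.card_finset, Fintype.card_fin]
      calc |∑ U, (cj i lam U : ℝ) * mu a U| ≤ ∑ U : Finset (Fin m), (N : ℝ) * A := by
            refine (Finset.abs_sum_le_sum_abs _ _).trans (Finset.sum_le_sum fun U _ => ?_)
            rw [abs_mul, abs_of_nonneg (mu_nonneg a U)]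
            have h3 : |(cj i lam U : ℝ)| ≤ N := by
              have h4 : |cj i lam U| ≤ (N : ℤ) := by rw [abs_cj]; exact hb U
              exact_mod_cast h4
            exact mul_le_mul h3 (mu_le a ha U) (mu_nonneg a U) (Nat.cast_nonneg _)
        _ = _ := by
            rw [Finset.sum_const, hcard, nsmul_eq_mul]
            push_cast
            ring
    refine h1.trans ?_
    rw [mul_assoc]
    refine mul_le_mul_of_nonneg_left ?_ (abs_nonneg _)
    set C : ℝ := C₀ * (4 ^ m * A) * (2 ^ m * A) with hCdef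
    have hpw : (C * N) ^ e' = ((C * N) ^ 2) ^ e * (C * N) := by
      rw [hee, pow_succ, pow_mul]
    rw [hpw, mul_comm]
    have hCN : (1 : ℝ) ≤ C * N := one_le_mul_of_one_le_of_one_le hC hN1
    have hq : C₀ * ((4 ^ m * A * N ^ 2 : ℕ) : ℝ) ≤ (C * N) ^ 2 := by
      have h5 : C₀ * ((4 ^ m * A * N ^ 2 : ℕ) : ℝ) = (C₀ * (4 ^ m * A)) * N ^ 2 := by
        push_cast
        ring
      rw [h5, mul_pow]
      refine mul_le_mul_of_nonneg_right ?_ (by positivity)
      have h6 : C₀ * (4 ^ m * A) ≤ C := by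
        rw [hCdef]
        exact le_mul_of_one_le_right (by linarith) hP2
      have h7 : C ≤ C ^ 2 := by
        rw [pow_two]
        exact le_mul_of_one_le_right (by linarith) hC
      exact h6.trans h7
    have hq2 : |∑ U, (cj i lam U : ℝ) * mu a U| ≤ C * N := by
      refine hxbb.trans ?_
      refine mul_le_mul_of_nonneg_right ?_ (by linarith)
      rw [hCdef]
      exact le_mul_of_one_le_left (by linarith) hC1
    refine mul_le_mul (pow_le_pow_left₀ (by positivity) hq e) hq2 (abs_nonneg _) (by positivity)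

end SpaAux

open SpaAux in
theorem pSpa (hLI : S_LI) : S_Spa := by
  intro m a ha
  have ha1 : ∀ l, 1 ≤ a l := by
    intro l
    rcases Nat.eq_zero_or_pos (a l) with h0 | h0
    · exfalso
      refine ha {l} (Finset.singleton_nonempty l) ?_
      rw [Finset.prod_singleton, h0]
      exact ⟨0, rfl⟩
    · exact h0
  obtain ⟨C, hC, h⟩ := main a (hLI m a ha) ha1 Finset.univ
  refine ⟨C, hC, fun N hN lam hlam hb => ?_⟩
  have hN1 : (1 : ℝ) ≤ N := by exact_mod_cast hN
  have h1 := h N hN lam (fun U hU => absurd (Finset.subset_univ U) hU) hlam hb (2 ^ m - 1) (by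
    rw [Finset.card_univ, Fintype.card_fin]
    have := Nat.one_le_two_pow (n := m)
    omega)
  refine h1.trans (mul_le_mul_of_nonneg_left ?_ (abs_nonneg _))
  exact pow_le_pow_right₀ (one_le_mul_of_one_le_of_one_le hC hN1) (Nat.sub_le _ _)

end Pool.Agent.SMQ
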