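import Pool.Agent.Lib.MP_452a87_nt.SpecX

/-!
# MP_452a87_nt, X/Swz: Schwarz lemma (helper68)
-/

set_option autoImplicit false

namespace Pool.Agent.SMQ

open MvPolynomial

private theorem factor (Z : Finset ℂ) : ∀ F : ℂ → ℂ, Differentiable ℂ F → (∀ x ∈ Z, F x = 0) →
    ∃ G : ℂ → ℂ, Differentiable ℂ G ∧ ∀ z, F z = (∏ x ∈ Z, (z - x)) * G z := by
  classical
  induction Z using Finset.induction_on with
  | empty =>
    intro F hF _
    exact ⟨F, hF, fun z => by simp⟩
  | insert x Z hx ih =>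
    intro F hF hZ
    have hFx : F x = 0 := hZ x (Finset.mem_insert_self _ _)
    have hd : Differentiable ℂ (dslope F x) := by
      rw [← differentiableOn_univ]
      exact (Complex.differentiableOn_dslope Filter.univ_mem).2 hF.differentiableOn
    have h0 : ∀ y ∈ Z, dslope F x y = 0 := by
      intro y hy
      have hyx : y ≠ x := fun h => hx (h ▸ hy)
      rw [dslope_of_ne _ hyx, slope_def_field, hZ y (Finset.mem_insert_of_mem hy), hFx]
      simp
    obtain ⟨G, hG, hG2⟩ := ih (dslope F x) hd h0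
    refine ⟨G, hG, fun z => ?_⟩
    rw [Finset.prod_insert hx, mul_assoc, ← hG2 z]
    have h1 := sub_smul_dslope F x z
    rw [hFx, sub_zero, smul_eq_mul] at h1
    exact h1.symm

theorem pSwz : S_Swz := by
  intro F Z R M hF hR hZ hM z hz
  obtain ⟨G, hG, hFG⟩ := factor Z F hF fun x hx => (hZ x hx).2
  have hM0 : 0 ≤ M := (norm_nonneg _).trans (hM 0 (by rw [norm_zero]; linarith))
  set T := Z.card with hT
  have h16 : (0 : ℝ) < (16 * R) ^ T := by positivity
  -- the bound of `G` on the circle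
  have hcirc : ∀ w : ℂ, ‖w‖ = 17 * R → ‖G w‖ ≤ M / (16 * R) ^ T := by
    intro w hw
    rw [le_div_iff₀ h16]
    have h1 : (16 * R) ^ T ≤ ‖∏ x ∈ Z, (w - x)‖ := by
      rw [norm_prod, hT, ← Finset.prod_const]
      refine Finset.prod_le_prod (fun _ _ => by positivity) fun x hx => ?_
      have h2 := norm_sub_norm_le w x
      have h3 := (hZ x hx).1
      linarith
    calc ‖G w‖ * (16 * R) ^ T ≤ ‖G w‖ * ‖∏ x ∈ Z, (w - x)‖ :=
          mul_le_mul_of_nonneg_left h1 (norm_nonneg _)
      _ = ‖F w‖ := by rw [hFG w, norm_mul, mul_comm]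
      _ ≤ M := hM w hw.le
  have hin : ‖G z‖ ≤ M / (16 * R) ^ T := by
    refine Complex.norm_le_of_forall_mem_frontier_norm_le (U := Metric.ball (0 : ℂ) (17 * R))
      Metric.isBounded_ball hG.diffContOnCl (fun w hw => ?_) ?_
    · rw [frontier_ball (0 : ℂ) (by positivity), mem_sphere_zero_iff_norm] at hw
      exact hcirc w hw
    · apply subset_closure
      rw [mem_ball_zero_iff]
      linarith
  have hprod : ‖∏ x ∈ Z, (z - x)‖ ≤ (2 * R) ^ T := by
    rw [norm_prod, hT, ← Finset.prod_const]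
    refine Finset.prod_le_prod (fun _ _ => norm_nonneg _) fun x hx => ?_
    have h2 := norm_sub_le z x
    have h3 := (hZ x hx).1
    linarith
  calc ‖F z‖ * 8 ^ T = ‖∏ x ∈ Z, (z - x)‖ * ‖G z‖ * 8 ^ T := by rw [hFG z, norm_mul]
    _ ≤ (2 * R) ^ T * (M / (16 * R) ^ T) * 8 ^ T := by gcongr
    _ = M := by
      have h4 : (16 * R) ^ T = (2 * R) ^ T * 8 ^ T := by
        rw [← mul_pow]
        congr 1
        ring
      rw [h4]
      have h5 : (0 : ℝ) < (2 * R) ^ T := by positivity
      field_simp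

end Pool.Agent.SMQ
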