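import Pool.Agent.Lib.MP_452a87_nt.SpecX

/-!
# MP_452a87_nt, X: the power sums of exponential sums (helper68)
-/

set_option autoImplicit false

namespace Pool.Agent.SMQ.Aux68

/-- the derivatives of an exponential sum -/
theorem iterDer_exp {n : ℕ} (p w : Fin n → ℂ) (l : ℕ) :
    iteratedDeriv l (fun z : ℂ => ∑ μ, p μ * Complex.exp (w μ * z)) =
      fun z => ∑ μ, p μ * w μ ^ l * Complex.exp (w μ * z) := by
  induction l with
  | zero =>
    rw [iteratedDeriv_zero]
    funext z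
    exact Finset.sum_congr rfl fun μ _ => by rw [pow_zero, mul_one]
  | succ l ih =>
    rw [iteratedDeriv_succ, ih]
    funext z
    have h : HasDerivAt (fun z : ℂ => ∑ μ, p μ * w μ ^ l * Complex.exp (w μ * z))
        (∑ μ, p μ * w μ ^ l * (Complex.exp (w μ * z) * (w μ * 1))) z := by
      refine HasDerivAt.fun_sum fun μ _ => ?_
      exact (((hasDerivAt_id z).const_mul (w μ)).cexp).const_mul _
    rw [h.deriv]
    exact Finset.sum_congr rfl fun μ _ => by ring

/-- the bound of Cauchy for the power sums -/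
theorem cauchy_exp {n : ℕ} (p w : Fin n → ℂ) {R M : ℝ} (hR : 0 < R)
    (h : ∀ z : ℂ, ‖z‖ ≤ R → ‖∑ μ, p μ * Complex.exp (w μ * z)‖ ≤ M) (l : ℕ) :
    ‖∑ μ, p μ * w μ ^ l‖ ≤ (Nat.factorial l : ℝ) * M / R ^ l := by
  have hd : Differentiable ℂ fun z : ℂ => ∑ μ, p μ * Complex.exp (w μ * z) := by fun_prop
  have h1 := Complex.norm_iteratedDeriv_le_of_forall_mem_sphere_norm_le (c := 0) (R := R) (C := M)
    (f := fun z : ℂ => ∑ μ, p μ * Complex.exp (w μ * z)) l hR hd.diffContOnCl fun z hz =>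
      h z (by rw [mem_sphere_zero_iff_norm] at hz; exact hz.le)
  rw [iterDer_exp p w l] at h1
  have h2 : (fun z : ℂ => ∑ μ, p μ * w μ ^ l * Complex.exp (w μ * z)) 0 = ∑ μ, p μ * w μ ^ l := by
    exact Finset.sum_congr rfl fun μ _ => by rw [mul_zero, Complex.exp_zero, mul_one]
  rw [h2] at h1
  exact h1

/-- the expansion of the products -/
theorem expand_sub {n : ℕ} (p w : Fin n → ℂ) (s : Finset (Fin n)) :
    ∑ μ, p μ * ∏ i ∈ s, (w μ - w i) =
      ∑ t ∈ s.powerset, (∏ i ∈ s \ t, (-w i)) * ∑ μ, p μ * w μ ^ t.card := by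
  have h1 : ∀ μ, ∏ i ∈ s, (w μ - w i) =
      ∑ t ∈ s.powerset, w μ ^ t.card * ∏ i ∈ s \ t, (-w i) := by
    intro μ
    have h2 : ∀ i, w μ - w i = w μ + -w i := fun i => sub_eq_add_neg _ _
    rw [Finset.prod_congr rfl fun i _ => h2 i, Finset.prod_add]
    exact Finset.sum_congr rfl fun t _ => by rw [Finset.prod_const]
  rw [Finset.sum_congr rfl fun μ _ => by rw [h1 μ, Finset.mul_sum]]
  rw [Finset.sum_comm]
  refine Finset.sum_congr rfl fun t _ => ?_
  rw [Finset.mul_sum]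
  exact Finset.sum_congr rfl fun μ _ => by ring

/-- the norm of the expansion -/
theorem norm_expand {n : ℕ} (p w : Fin n → ℂ) {Ω : ℝ} (hw : ∀ i, ‖w i‖ ≤ Ω)
    (s : Finset (Fin n)) : ‖∑ μ, p μ * ∏ i ∈ s, (w μ - w i)‖ ≤
      ∑ t ∈ s.powerset, Ω ^ (s.card - t.card) * ‖∑ μ, p μ * w μ ^ t.card‖ := by
  rw [expand_sub]
  refine (norm_sum_le _ _).trans (Finset.sum_le_sum fun t ht => ?_)
  rw [norm_mul, norm_prod]
  refine mul_le_mul_of_nonneg_right ?_ (norm_nonneg _)
  rw [← Finset.card_sdiff_of_subset (Finset.mem_powerset.1 ht), ← Finset.prod_const]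
  exact Finset.prod_le_prod (fun _ _ => norm_nonneg _) fun i _ => by
    rw [norm_neg]
    exact hw i

end Pool.Agent.SMQ.Aux68
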