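import Pool.Agent.Lib.MP_452a87_nt.SpecX

/-!
# MP_452a87_nt, X/Ev (helper68)
-/

set_option autoImplicit false

namespace Pool.Agent.SMQ

open MvPolynomial

theorem pEv (h1 : S_Cvi) : S_Ev := by
  intro m a L N p s
  unfold fs
  rw [map_sum]
  refine Finset.sum_congr rfl fun lam _ => ?_
  rw [map_mul, map_prod, aeval_C]
  have h2 := h1 m a (fun U => (lam U : ℕ)) s
  have h3 : (∏ W, aeval (th a L) (X W ^ cv a (fun U => (lam U : ℕ)) s W :
      MvPolynomial (Finset (Fin m)) ℤ)) = Complex.exp (((∑ W, (cv a (fun U => (lam U : ℕ)) s W : ℝ)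
        * mu a W : ℝ) : ℂ) * L) := by
    rw [Complex.ofReal_sum, Finset.sum_mul, Complex.exp_sum]
    refine Finset.prod_congr rfl fun W _ => ?_
    rw [map_pow, aeval_X]
    unfold th
    rw [← Complex.exp_nat_mul]
    congr 1
    push_cast
    ring
  rw [h3, ← h2]
  congr 2
  push_cast
  ring

end Pool.Agent.SMQ
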