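import Pool.Agent.Lib.MP_452a87_nt.SpecX

/-!
# MP_452a87_nt, X/Fl1 (helper68)
-/

set_option autoImplicit false

namespace Pool.Agent.SMQ

open MvPolynomial

private theorem l1_of_subset {ι : Type} (f : MvPolynomial ι ℤ) (T : Finset (ι →₀ ℕ))
    (h : f.support ⊆ T) : l1 f = ∑ m ∈ T, (f.coeff m).natAbs := by
  unfold l1
  refine Finset.sum_subset h fun m _ hm => ?_
  rw [notMem_support_iff.1 hm]
  rfl

private theorem l1_add {ι : Type} (f g : MvPolynomial ι ℤ) : l1 (f + g) ≤ l1 f + l1 g := by
  classical
  rw [l1_of_subset (f + g) (f.support ∪ g.support) support_add,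
    l1_of_subset f (f.support ∪ g.support) Finset.subset_union_left,
    l1_of_subset g (f.support ∪ g.support) Finset.subset_union_right, ← Finset.sum_add_distrib]
  refine Finset.sum_le_sum fun m _ => ?_
  rw [coeff_add]
  exact Int.natAbs_add_le _ _

private theorem l1_sum {ι κ : Type} (s : Finset κ) (f : κ → MvPolynomial ι ℤ) :
    l1 (∑ k ∈ s, f k) ≤ ∑ k ∈ s, l1 (f k) := by
  classical
  induction s using Finset.induction_on with
  | empty =>
    rw [Finset.sum_empty, Finset.sum_empty]
    unfold l1
    rw [support_zero, Finset.sum_empty]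
  | insert k s hk ih =>
    rw [Finset.sum_insert hk, Finset.sum_insert hk]
    exact (l1_add _ _).trans (Nat.add_le_add_left ih _)

private theorem prod_mono {ι : Type} [Fintype ι] (e : ι → ℕ) :
    (∏ W, (X W : MvPolynomial ι ℤ) ^ e W) = monomial (Finsupp.equivFunOnFinite.symm e) 1 := by
  classical
  rw [← prod_X_pow_eq_monomial]
  refine (Finset.prod_subset (Finset.subset_univ _) fun W _ hW => ?_).symm
  have h : e W = 0 := Finsupp.notMem_support_iff.1 hW
  change X W ^ (e W) = 1
  rw [h, pow_zero]

theorem pFl1 : S_Fl1 := by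
  intro m a N P p hp s
  unfold fs
  refine (l1_sum _ _).trans ?_
  have h1 : ∀ lam : Finset (Fin m) → Fin N, l1 (C (p lam) * ∏ W, X W ^
      cv a (fun U => (lam U : ℕ)) s W : MvPolynomial (Finset (Fin m)) ℤ) ≤ P := by
    intro lam
    rw [prod_mono, C_mul_monomial, mul_one, l1_of_subset _ _ support_monomial_subset,
      Finset.sum_singleton, coeff_monomial, if_pos rfl]
    have := hp lam
    rw [Int.abs_eq_natAbs] at this
    exact_mod_cast this
  refine (Finset.sum_le_sum fun lam _ => h1 lam).trans ?_
  rw [Finset.sum_const, smul_eq_mul, Finset.card_univ, Fintype.card_fun, Fintype.card_fin,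
    Fintype.card_finset, Fintype.card_fin]

end Pool.Agent.SMQ
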