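import Pool.Agent.Lib.MP_452a87_nt.SpecX

/-!
# MP_452a87_nt, X/Fsz (helper68)
-/

set_option autoImplicit false

namespace Pool.Agent.SMQ

open MvPolynomial

private theorem prod_mono' {ι : Type} [Fintype ι] (e : ι → ℕ) :
    (∏ W, (X W : MvPolynomial ι ℤ) ^ e W) = monomial (Finsupp.equivFunOnFinite.symm e) 1 := by
  classical
  rw [← prod_X_pow_eq_monomial]
  refine (Finset.prod_subset (Finset.subset_univ _) fun W _ hW => ?_).symm
  have h : e W = 0 := Finsupp.notMem_support_iff.1 hW
  change X W ^ (e W) = 1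
  rw [h, pow_zero]

theorem pFsz (h1 : S_Cvb) : S_Fsz := by
  intro m a
  obtain ⟨C0, hC0⟩ := h1 m a
  refine ⟨max (2 ^ m * (C0 * 2)) (2 ^ m + 1), le_trans (Nat.le_add_left 1 (2 ^ m)) (le_max_right _ _), ?_⟩
  intro N hN p hp s hs
  have hcv : ∀ (lam : Finset (Fin m) → Fin N) (W : Finset (Fin m)),
      cv a (fun U => (lam U : ℕ)) s W ≤ C0 * (N * (2 * N)) := fun lam W =>
    hC0 N (2 * N) (fun U => (lam U : ℕ)) s (fun U => (lam U).2.le) hs W
  have hc : (Finset.univ : Finset (Finset (Fin m))).card = 2 ^ m := by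
    rw [Finset.card_univ, Fintype.card_finset, Fintype.card_fin]
  constructor
  · unfold fs
    refine (totalDegree_finsetSum_le (d := 2 ^ m * (C0 * 2) * N ^ 2) fun lam _ => ?_).trans
      (Nat.mul_le_mul_right _ (le_max_left _ _))
    refine (totalDegree_mul _ _).trans ?_
    rw [totalDegree_C, zero_add]
    refine (totalDegree_finset_prod _ _).trans ?_
    refine (Finset.sum_le_sum fun W _ => (totalDegree_pow _ _).trans ?_ :
      _ ≤ ∑ W : Finset (Fin m), C0 * (N * (2 * N))).trans ?_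
    · rw [totalDegree_X, mul_one]
      exact hcv lam W
    · rw [Finset.sum_const, hc, smul_eq_mul]
      apply le_of_eq
      ring
  · intro e
    unfold fs
    rw [coeff_sum]
    have hterm : ∀ lam : Finset (Fin m) → Fin N, |coeff e (C (p lam) * ∏ W, X W ^
        cv a (fun U => (lam U : ℕ)) s W : MvPolynomial (Finset (Fin m)) ℤ)| ≤ 2 ^ (N ^ 2) := by
      intro lam
      rw [prod_mono', C_mul_monomial, mul_one, coeff_monomial]
      split_ifs with h
      · exact hp lam
      · rw [abs_zero]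
        positivity
    refine (Finset.abs_sum_le_sum_abs _ _).trans ((Finset.sum_le_sum fun lam _ =>
      hterm lam).trans ?_)
    rw [Finset.sum_const, nsmul_eq_mul, Finset.card_univ, Fintype.card_fun, Fintype.card_fin,
      Fintype.card_finset, Fintype.card_fin]
    have h2 : N ^ 2 ^ m ≤ 2 ^ (2 ^ m * N ^ 2) := by
      calc N ^ 2 ^ m ≤ (2 ^ (N ^ 2)) ^ 2 ^ m := by
            apply Nat.pow_le_pow_left
            refine (Nat.lt_two_pow_self (n := N)).le.trans (Nat.pow_le_pow_right (by norm_num) ?_)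
            nlinarith
        _ = 2 ^ (2 ^ m * N ^ 2) := by
            rw [← pow_mul, mul_comm]
    have h3 : N ^ 2 ^ m * 2 ^ (N ^ 2) ≤ 2 ^ (max (2 ^ m * (C0 * 2)) (2 ^ m + 1) * N ^ 2) := by
      calc N ^ 2 ^ m * 2 ^ (N ^ 2) ≤ 2 ^ (2 ^ m * N ^ 2) * 2 ^ (N ^ 2) :=
            Nat.mul_le_mul_right _ h2
        _ = 2 ^ ((2 ^ m + 1) * N ^ 2) := by
            rw [← pow_add]
            congr 1
            ring
        _ ≤ _ := Nat.pow_le_pow_right (by norm_num) (Nat.mul_le_mul_right _ (le_max_right _ _))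
    exact_mod_cast h3

end Pool.Agent.SMQ
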