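import Pool.Agent.Lib.MP_452a87_nt.SpecX

/-!
# The auxiliary polynomials are small
-/

set_option autoImplicit false

namespace Pool.Agent.SMQ

open MvPolynomial

theorem pX1 (hX1a : S_X1a) (hEv : S_Ev) (hPts : S_Pts) (hSwz : S_Swz) : S_X1 := by
  intro m a L t c hInd hL hPP ht
  obtain ⟨C, hC1, hPts⟩ := hPts m a L hInd hL
  obtain ⟨N1, hN1⟩ := hX1a m a L t c hPP ht
  set D : ℕ := 2 ^ m with hD
  have hD1 : 1 ≤ D := Nat.one_le_two_pow
  set C2 : ℝ := D + 1 + 17 * C ^ 2 with hC2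
  have hDr : (0 : ℝ) ≤ D := Nat.cast_nonneg _
  have hC20 : 0 ≤ C2 := by positivity
  refine ⟨N1 + ⌈2 ^ D * (1 + C2)⌉₊ + 1, fun N hN => ?_⟩
  obtain ⟨S0, p, hS1, hSN, hS3, hp0, hpb, hvan⟩ := hN1 N (by omega)
  have hN1' : 1 ≤ N := by omega
  obtain ⟨hP1, -, hP3, hP4⟩ := hPts N hN1'
  have hNr : (1 : ℝ) ≤ N := by exact_mod_cast hN1'
  have hNbig : 2 ^ D * (1 + C2) ≤ (N : ℝ) := by
    have h1 : 2 ^ D * (1 + C2) ≤ (⌈2 ^ D * (1 + C2)⌉₊ : ℝ) := Nat.le_ceil _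
    have h2 : ((⌈2 ^ D * (1 + C2)⌉₊ : ℕ) : ℝ) ≤ N := by exact_mod_cast (by omega : ⌈2 ^ D * (1 + C2)⌉₊ ≤ N)
    exact h1.trans h2
  refine ⟨p, hp0, hpb, fun s hs => ?_⟩
  set F : ℂ → ℂ := fun z => ∑ lam : Finset (Fin m) → Fin N,
    (p lam : ℂ) * Complex.exp (((∑ U, ((lam U : ℕ) : ℝ) * mu a U : ℝ) : ℂ) * z) with hF
  have hFd : Differentiable ℂ F := by
    rw [hF]
    fun_prop
  have hCN0 : 0 < C * N := by positivity
  -- points
  set zs : (Finset (Fin m) → Fin S0) → ℂ := fun s => ((∑ V, ((s V : ℕ) : ℝ) * mu a V : ℝ) : ℂ) * L with hzs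
  set emb : (Finset (Fin m) → Fin S0) → (Finset (Fin m) → Fin (2 * N)) :=
    fun s V => ⟨(s V : ℕ), lt_of_lt_of_le (s V).2 (by omega)⟩ with hemb
  have hzemb : ∀ s, zs s = ((∑ V, ((emb s V : ℕ) : ℝ) * mu a V : ℝ) : ℂ) * L := fun s => rfl
  have hinj : Function.Injective zs := by
    intro s s' hss
    by_contra hne
    have hne' : emb s ≠ emb s' := by
      intro h
      apply hne
      funext V
      have := congrFun h V
      simp only [hemb, Fin.mk.injEq] at this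
      exact Fin.ext this
    have h1 := hP4 (emb s) (emb s') hne'
    rw [← hzemb, ← hzemb, hss, sub_self, norm_zero, zero_mul] at h1
    linarith
  set Z : Finset ℂ := Finset.univ.image zs with hZ
  have hZcard : Z.card = S0 ^ D := by
    rw [hZ, Finset.card_image_of_injective _ hinj, Finset.card_univ, Fintype.card_fun, Fintype.card_finset,
      Fintype.card_fin, Fintype.card_fin]
  have hZ0 : ∀ x ∈ Z, ‖x‖ ≤ C * N ∧ F x = 0 := by
    intro x hx
    obtain ⟨s', -, rfl⟩ := Finset.mem_image.1 hx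
    refine ⟨hP3 (emb s'), ?_⟩
    have h1 := hvan (fun V => (s' V : ℕ)) (fun V => (s' V).2)
    rw [hEv] at h1
    exact h1
  set M : ℝ := Real.exp (C2 * N ^ 2) with hM
  have hbound : ∀ z : ℂ, ‖z‖ ≤ 17 * (C * N) → ‖F z‖ ≤ M := by
    intro z hz
    have hterm : ∀ lam : Finset (Fin m) → Fin N,
        ‖(p lam : ℂ) * Complex.exp (((∑ U, ((lam U : ℕ) : ℝ) * mu a U : ℝ) : ℂ) * z)‖ ≤
        2 ^ (N ^ 2) * Real.exp (17 * C ^ 2 * N ^ 2) := by
      intro lam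
      rw [norm_mul]
      have h1 : ‖(p lam : ℂ)‖ ≤ 2 ^ (N ^ 2) := by
        rw [Complex.norm_intCast]
        have := hpb lam
        exact_mod_cast this
      have h2 : ‖Complex.exp (((∑ U, ((lam U : ℕ) : ℝ) * mu a U : ℝ) : ℂ) * z)‖ ≤ Real.exp (17 * C ^ 2 * N ^ 2) := by
        refine (Complex.norm_exp_le_exp_norm _).trans ?_
        apply Real.exp_le_exp.2
        rw [norm_mul, Complex.norm_real, Real.norm_eq_abs]
        calc |∑ U, ((lam U : ℕ) : ℝ) * mu a U| * ‖z‖ ≤ (C * N) * (17 * (C * N)) :=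
              mul_le_mul (hP1 lam) hz (norm_nonneg _) hCN0.le
          _ = 17 * C ^ 2 * N ^ 2 := by ring
      exact mul_le_mul h1 h2 (norm_nonneg _) (by positivity)
    calc ‖F z‖ ≤ ∑ lam : Finset (Fin m) → Fin N,
          ‖(p lam : ℂ) * Complex.exp (((∑ U, ((lam U : ℕ) : ℝ) * mu a U : ℝ) : ℂ) * z)‖ := norm_sum_le _ _
      _ ≤ ∑ _lam : Finset (Fin m) → Fin N, 2 ^ (N ^ 2) * Real.exp (17 * C ^ 2 * N ^ 2) :=
          Finset.sum_le_sum fun lam _ => hterm lam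
      _ = (N : ℝ) ^ D * (2 ^ (N ^ 2) * Real.exp (17 * C ^ 2 * N ^ 2)) := by
          rw [Finset.sum_const, Finset.card_univ, Fintype.card_fun, Fintype.card_finset, Fintype.card_fin,
            Fintype.card_fin, nsmul_eq_mul]
          push_cast
          rfl
      _ ≤ Real.exp (D * N ^ 2) * (Real.exp (N ^ 2) * Real.exp (17 * C ^ 2 * N ^ 2)) := by
          have h1 : (N : ℝ) ^ D ≤ Real.exp (D * N ^ 2) := by
            have h2 : (N : ℝ) ≤ Real.exp ((N : ℝ) ^ 2) := by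
              have h3 := Real.add_one_le_exp ((N : ℝ) ^ 2)
              nlinarith
            calc (N : ℝ) ^ D ≤ Real.exp ((N : ℝ) ^ 2) ^ D := pow_le_pow_left₀ (by positivity) h2 _
              _ = Real.exp (D * N ^ 2) := by rw [← Real.exp_nat_mul]
          have h4 : (2 : ℝ) ^ (N ^ 2) ≤ Real.exp ((N : ℝ) ^ 2) := by
            have h5 : (2 : ℝ) ≤ Real.exp 1 := by
              have := Real.add_one_le_exp (1 : ℝ)
              linarith
            calc (2 : ℝ) ^ (N ^ 2) ≤ Real.exp 1 ^ (N ^ 2) := pow_le_pow_left₀ (by norm_num) h5 _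
              _ = Real.exp ((N : ℝ) ^ 2) := by
                  rw [← Real.exp_nat_mul]
                  push_cast
                  rw [mul_one]
          gcongr
      _ = M := by
          rw [hM, ← Real.exp_add, ← Real.exp_add, hC2]
          congr 1
          ring
  have hsw := hSwz F Z (C * N) M hFd hCN0 hZ0 hbound
  set sf : Finset (Fin m) → Fin (2 * N) := fun V => ⟨s V, hs V⟩ with hsf
  have hzs' : ‖((∑ V, (s V : ℝ) * mu a V : ℝ) : ℂ) * L‖ ≤ C * N := hP3 sf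
  have h1 := hsw _ hzs'
  rw [hEv]
  have h2 : ‖F (((∑ V, (s V : ℝ) * mu a V : ℝ) : ℂ) * L)‖ * 8 ^ (S0 ^ D) ≤ M := by
    rw [← hZcard]
    exact h1
  show ‖F (((∑ V, (s V : ℝ) * mu a V : ℝ) : ℂ) * L)‖ ≤ _
  set e : ℕ := D - 2 * t - 2 with he
  have hS4 : (N : ℝ) ^ (e + 1) ≤ 2 ^ D * (S0 : ℝ) ^ D := by
    have h3 : N ^ (e + 1) ≤ 2 ^ D * S0 ^ D := by
      have h4 : N ^ (D - 2 * t - 1) < (S0 + 1) ^ D := hS3
      have h5 : D - 2 * t - 1 = e + 1 := by omega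
      rw [h5] at h4
      calc N ^ (e + 1) ≤ (S0 + 1) ^ D := h4.le
        _ ≤ (2 * S0) ^ D := Nat.pow_le_pow_left (by omega) _
        _ = 2 ^ D * S0 ^ D := by rw [mul_pow]
    exact_mod_cast h3
  have h8 : Real.exp ((S0 : ℝ) ^ D) ≤ 8 ^ (S0 ^ D) := by
    have h5 : Real.exp 1 ≤ 8 := by
      have := Real.exp_one_lt_d9
      linarith
    calc Real.exp ((S0 : ℝ) ^ D) = Real.exp 1 ^ (S0 ^ D) := by
          rw [← Real.exp_nat_mul]
          push_cast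
          rw [mul_one]
      _ ≤ 8 ^ (S0 ^ D) := pow_le_pow_left₀ (Real.exp_pos _).le h5 _
  have hexpo : C2 * (N : ℝ) ^ 2 + (N : ℝ) ^ e ≤ (S0 : ℝ) ^ D := by
    have h2D : (0 : ℝ) < 2 ^ D := by positivity
    have h6 : 2 ^ D * (C2 * (N : ℝ) ^ 2 + (N : ℝ) ^ e) ≤ 2 ^ D * (S0 : ℝ) ^ D := by
      refine le_trans ?_ hS4
      have he3 : 2 ≤ e := by omega
      have h7 : (N : ℝ) ^ 2 ≤ (N : ℝ) ^ e := pow_le_pow_right₀ hNr he3
      have h9 : C2 * (N : ℝ) ^ 2 + (N : ℝ) ^ e ≤ (1 + C2) * (N : ℝ) ^ e := by nlinarith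
      calc 2 ^ D * (C2 * (N : ℝ) ^ 2 + (N : ℝ) ^ e) ≤ 2 ^ D * ((1 + C2) * (N : ℝ) ^ e) :=
            mul_le_mul_of_nonneg_left h9 h2D.le
        _ = (2 ^ D * (1 + C2)) * (N : ℝ) ^ e := by ring
        _ ≤ N * (N : ℝ) ^ e := mul_le_mul_of_nonneg_right hNbig (by positivity)
        _ = (N : ℝ) ^ (e + 1) := by ring
    exact le_of_mul_le_mul_left h6 h2D
  have hpos8 : (0 : ℝ) < 8 ^ (S0 ^ D) := by positivity
  rw [← le_div_iff₀ hpos8] at h2
  refine h2.trans ?_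
  rw [div_le_iff₀ hpos8]
  calc M = Real.exp (-(N : ℝ) ^ e) * Real.exp (C2 * (N : ℝ) ^ 2 + (N : ℝ) ^ e) := by
        rw [← Real.exp_add, hM]
        congr 1
        ring
    _ ≤ Real.exp (-(N : ℝ) ^ e) * Real.exp ((S0 : ℝ) ^ D) := by
        gcongr
    _ ≤ Real.exp (-(N : ℝ) ^ e) * 8 ^ (S0 ^ D) := by
        gcongr

end Pool.Agent.SMQ
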