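import Pool.Agent.Lib.MP_452a87_nt.SpecX

/-!
# The auxiliary functions: exact vanishing
-/

set_option autoImplicit false

namespace Pool.Agent.SMQ

open MvPolynomial

namespace X1aAux

lemma exists_root (D e N : ℕ) (hD : 1 ≤ D) (he : e ≤ D) (hN : 1 ≤ N) :
    ∃ S : ℕ, 1 ≤ S ∧ S ≤ N ∧ S ^ D ≤ N ^ e ∧ N ^ e < (S + 1) ^ D := by
  have hex : ∃ k : ℕ, N ^ e < (k + 1) ^ D := by
    refine ⟨N ^ e, ?_⟩
    calc N ^ e < N ^ e + 1 := Nat.lt_succ_self _
      _ ≤ (N ^ e + 1) ^ D := Nat.le_self_pow (by omega) _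
  classical
  set S := Nat.find hex with hS
  have h1 : N ^ e < (S + 1) ^ D := Nat.find_spec hex
  have hS1 : 1 ≤ S := by
    by_contra h0
    have h0' : S = 0 := by omega
    rw [h0'] at h1
    simp at h1
    have : 1 ≤ N ^ e := Nat.one_le_pow _ _ hN
    omega
  have h2 : S ^ D ≤ N ^ e := by
    have := Nat.find_min hex (m := S - 1) (by omega)
    push Not at this
    rwa [Nat.sub_add_cancel hS1] at this
  refine ⟨S, hS1, ?_, h2, h1⟩
  have h3 : S ^ D ≤ N ^ D := h2.trans (Nat.pow_le_pow_right hN he)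
  exact le_of_pow_le_pow_left₀ (by omega) (by omega) h3

lemma prodX_eq {σ : Type} [Fintype σ] (n : σ → ℕ) :
    (∏ W, (X W : MvPolynomial σ ℤ) ^ n W) = monomial (Finsupp.equivFunOnFinite.symm n) 1 := by
  classical
  rw [monomial_eq, C_1, one_mul, Finsupp.prod_fintype _ _ (fun i => pow_zero _)]
  rfl

lemma coeff_prodX {σ : Type} [Fintype σ] (n : σ → ℕ) (k : σ →₀ ℕ) :
    |(∏ W, (X W : MvPolynomial σ ℤ) ^ n W).coeff k| ≤ 1 := by
  classical
  rw [prodX_eq, coeff_monomial]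
  split_ifs <;> simp

lemma totalDegree_prodX {σ : Type} [Fintype σ] (n : σ → ℕ) (B : ℕ) (hB : ∀ W, n W ≤ B) :
    (∏ W, (X W : MvPolynomial σ ℤ) ^ n W).totalDegree ≤ Fintype.card σ * B := by
  refine (totalDegree_finsetProd _ _).trans ?_
  calc ∑ W : σ, ((X W : MvPolynomial σ ℤ) ^ n W).totalDegree ≤ ∑ _W : σ, B := by
        refine Finset.sum_le_sum fun W _ => ?_
        refine (totalDegree_pow _ _).trans ?_
        rw [totalDegree_X, mul_one]
        exact hB W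
    _ = Fintype.card σ * B := by rw [Finset.sum_const, Finset.card_univ, smul_eq_mul]

end X1aAux

open X1aAux

theorem pX1a (hPG : S_PG) (hCvb : S_Cvb) : S_X1a := by
  intro m a L t c hPP ht
  obtain ⟨Cc, hCc⟩ := hCvb m a
  set D : ℕ := 2 ^ m with hD
  have hD1 : 1 ≤ D := Nat.one_le_two_pow
  set κ : ℕ := D * (Cc + 1) with hκ
  have hκ1 : 1 ≤ κ := Nat.mul_pos hD1 (Nat.succ_pos _)
  set C1 : ℕ := c * (κ ^ t * (D + 2) + κ ^ (t + 1)) with hC1
  refine ⟨C1 + 1, fun N hN => ?_⟩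
  have hN1 : 1 ≤ N := by omega
  obtain ⟨S0, hS1, hSN, hS2, hS3⟩ := exists_root D (D - 2 * t - 1) N hD1 (by omega) hN1
  set g : (Finset (Fin m) → Fin N) → (Finset (Fin m) → Fin S0) → MvPolynomial (Finset (Fin m)) ℤ :=
    fun lam s => ∏ W, X W ^ cv a (fun U => (lam U : ℕ)) (fun V => (s V : ℕ)) W with hg
  have hcardI : Fintype.card (Finset (Fin m) → Fin N) = N ^ D := by
    rw [Fintype.card_fun, Fintype.card_finset, Fintype.card_fin, Fintype.card_fin]
  have hcardG : Fintype.card (Finset (Fin m) → Fin S0) = S0 ^ D := by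
    rw [Fintype.card_fun, Fintype.card_finset, Fintype.card_fin, Fintype.card_fin]
  have hcardF : Fintype.card (Finset (Fin m)) = D := by
    rw [Fintype.card_finset, Fintype.card_fin]
  set d : ℕ := κ * N ^ 2 with hd
  have hd1 : 1 ≤ d := Nat.mul_pos hκ1 (Nat.pow_pos hN1)
  have hdeg : ∀ i γ, (g i γ).totalDegree ≤ d := by
    intro i γ
    refine (totalDegree_prodX _ (Cc * (N * N)) fun W => ?_).trans ?_
    · exact hCc N N _ _ (fun U => (i U).2.le) (fun V => (γ V).2.le.trans hSN) W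
    · rw [hcardF, hd, hκ, pow_two]
      calc D * (Cc * (N * N)) ≤ D * ((Cc + 1) * (N * N)) := by
            apply Nat.mul_le_mul_left
            apply Nat.mul_le_mul_right
            omega
        _ = D * (Cc + 1) * (N * N) := by ring
  have hcoef : ∀ γ k, ∑ i, |(g i γ).coeff k| ≤ 2 ^ (D * N) := by
    intro γ k
    calc ∑ i, |(g i γ).coeff k| ≤ ∑ _i : (Finset (Fin m) → Fin N), (1 : ℤ) :=
          Finset.sum_le_sum fun i _ => coeff_prodX _ _
      _ = ((N ^ D : ℕ) : ℤ) := by rw [Finset.sum_const, Finset.card_univ, hcardI]; simp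
      _ ≤ 2 ^ (D * N) := by
          have h1 : N ^ D ≤ 2 ^ (D * N) := by
            rw [Nat.mul_comm, pow_mul]
            exact Nat.pow_le_pow_left (Nat.lt_two_pow_self).le D
          exact_mod_cast h1
  have hK : Kc (th a L) d (N ^ 2 + D * N + 1) ^ Fintype.card (Finset (Fin m) → Fin S0) <
      2 ^ (N ^ 2 * Fintype.card (Finset (Fin m) → Fin N)) := by
    rw [hcardI, hcardG]
    have h1 := hPP d (N ^ 2 + D * N + 1) hd1 (by omega)
    have hexp : c * (d ^ t * (N ^ 2 + D * N + 1) + d ^ (t + 1)) ≤ C1 * N ^ (2 * t + 2) := by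
      have h2 : N ^ 2 + D * N + 1 ≤ (D + 2) * N ^ 2 := by
        have hNN : N ≤ N ^ 2 := Nat.le_self_pow (by norm_num) N
        have hDN : D * N ≤ D * N ^ 2 := Nat.mul_le_mul_left _ hNN
        have h12 : 1 ≤ N ^ 2 := Nat.pow_pos hN1
        calc N ^ 2 + D * N + 1 ≤ N ^ 2 + D * N ^ 2 + N ^ 2 := by omega
          _ = (D + 2) * N ^ 2 := by ring
      have h3 : d ^ t * (N ^ 2 + D * N + 1) ≤ κ ^ t * (D + 2) * N ^ (2 * t + 2) := by
        calc d ^ t * (N ^ 2 + D * N + 1) ≤ d ^ t * ((D + 2) * N ^ 2) := Nat.mul_le_mul_left _ h2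
          _ = κ ^ t * (D + 2) * N ^ (2 * t + 2) := by
              rw [hd, mul_pow, ← pow_mul, pow_add]
              ring
      have h4 : d ^ (t + 1) = κ ^ (t + 1) * N ^ (2 * t + 2) := by
        rw [hd, mul_pow, ← pow_mul]
        congr 2
      calc c * (d ^ t * (N ^ 2 + D * N + 1) + d ^ (t + 1))
          ≤ c * (κ ^ t * (D + 2) * N ^ (2 * t + 2) + κ ^ (t + 1) * N ^ (2 * t + 2)) := by
            rw [h4]
            exact Nat.mul_le_mul_left _ (Nat.add_le_add_right h3 _)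
        _ = C1 * N ^ (2 * t + 2) := by rw [hC1]; ring
    have h5 : Kc (th a L) d (N ^ 2 + D * N + 1) ≤ 2 ^ (C1 * N ^ (2 * t + 2)) :=
      h1.trans (Nat.pow_le_pow_right (by norm_num) hexp)
    calc Kc (th a L) d (N ^ 2 + D * N + 1) ^ (S0 ^ D) ≤ (2 ^ (C1 * N ^ (2 * t + 2))) ^ (S0 ^ D) :=
          Nat.pow_le_pow_left h5 _
      _ = 2 ^ (C1 * N ^ (2 * t + 2) * S0 ^ D) := by rw [← pow_mul]
      _ ≤ 2 ^ (C1 * N ^ (2 * t + 2) * N ^ (D - 2 * t - 1)) :=
          Nat.pow_le_pow_right (by norm_num) (Nat.mul_le_mul_left _ hS2)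
      _ = 2 ^ (C1 * N ^ (D + 1)) := by
          rw [mul_assoc, ← pow_add]
          congr 3
          omega
      _ < 2 ^ (N ^ 2 * N ^ D) := by
          apply Nat.pow_lt_pow_right (by norm_num)
          have h6 : N ^ 2 * N ^ D = N * N ^ (D + 1) := by ring
          rw [h6]
          exact Nat.mul_lt_mul_of_pos_right (by omega) (Nat.pow_pos hN1)
  obtain ⟨w, hw0, hwb, hw⟩ := hPG (Finset (Fin m)) ℂ (Finset (Fin m) → Fin N) (Finset (Fin m) → Fin S0)
    (th a L) g d (N ^ 2) (D * N) hdeg hcoef hK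
  refine ⟨S0, w, hS1, hSN, hS3, hw0, fun lam => (hwb lam).le, fun s hs => ?_⟩
  have h1 := hw (fun V => ⟨s V, hs V⟩)
  rw [fs, map_sum, ← h1]
  refine Finset.sum_congr rfl fun lam _ => ?_
  rw [map_mul, aeval_C]
  simp [hg]

end Pool.Agent.SMQ
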